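import Mathlib

open MvPolynomial

namespace Pool.Agent.Helper71.SUB

noncomputable section

variable {n : ℕ} {R : Type*} [CommRing R]

/-- product of binomial coefficients -/
def bp (a b : Fin n →₀ ℕ) : ℕ := ∏ i, (a i).choose (b i)

/-- the translation `P ↦ P(X + Y)` -/
def tay : MvPolynomial (Fin n) R →ₐ[R] MvPolynomial (Fin n) (MvPolynomial (Fin n) R) :=
  aeval (fun i => X i + C (X i))

/-- divided partial derivative -/
def hs (b : Fin n →₀ ℕ) : MvPolynomial (Fin n) R →ₗ[R] MvPolynomial (Fin n) R where
  toFun P := coeff b (tay P)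
  map_add' P Q := by simp
  map_smul' c P := by
    simp only [map_smul, RingHom.id_apply]
    rw [coeff_smul]

lemma hs_apply (b : Fin n →₀ ℕ) (P : MvPolynomial (Fin n) R) : hs b P = coeff b (tay P) := rfl

lemma hs_mul (b : Fin n →₀ ℕ) (P Q : MvPolynomial (Fin n) R) :
    hs b (P * Q) = ∑ c ∈ Finset.HasAntidiagonal.antidiagonal b, hs c.1 P * hs c.2 Q := by
  simp only [hs_apply, map_mul, coeff_mul]

lemma bp_eq_zero {a b : Fin n →₀ ℕ} (h : ¬ b ≤ a) : bp a b = 0 := by
  rw [Finsupp.le_def] at h
  push Not at h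
  obtain ⟨i, hi⟩ := h
  exact Finset.prod_eq_zero (Finset.mem_univ i) (Nat.choose_eq_zero_of_lt hi)

lemma tay_monomial (a : Fin n →₀ ℕ) (c : R) :
    tay (monomial a c) = ∑ p ∈ Fintype.piFinset (fun i => Finset.range (a i + 1)),
      monomial (Finsupp.equivFunOnFinite.symm p)
        (monomial (a - Finsupp.equivFunOnFinite.symm p)
          ((bp a (Finsupp.equivFunOnFinite.symm p) : R) * c)) := by
  rw [tay, aeval_monomial]
  rw [Finsupp.prod_fintype _ _ (by intro i; simp)]
  simp_rw [add_pow]
  rw [Finset.prod_univ_sum, Finset.mul_sum]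
  refine Finset.sum_congr rfl fun p hp => ?_
  rw [Fintype.mem_piFinset] at hp
  have h1 : (∏ i : Fin n, (X i : MvPolynomial (Fin n) (MvPolynomial (Fin n) R)) ^ p i
      * (C (X i)) ^ (a i - p i) * ((a i).choose (p i) : MvPolynomial (Fin n) (MvPolynomial (Fin n) R)))
      = monomial (Finsupp.equivFunOnFinite.symm p)
        (monomial (a - Finsupp.equivFunOnFinite.symm p)
          ((bp a (Finsupp.equivFunOnFinite.symm p) : R))) := by
    rw [Finset.prod_mul_distrib, Finset.prod_mul_distrib]
    rw [monomial_eq (s := Finsupp.equivFunOnFinite.symm p)]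
    rw [monomial_eq (s := a - Finsupp.equivFunOnFinite.symm p)]
    rw [Finsupp.prod_fintype _ _ (by intro i; simp), Finsupp.prod_fintype _ _ (by intro i; simp)]
    simp only [bp, map_mul, map_prod, map_pow, Nat.cast_prod, map_natCast, Finsupp.coe_tsub,
      Pi.sub_apply, Finsupp.equivFunOnFinite_symm_apply_apply]
    ring
  rw [h1]
  rw [show (algebraMap R (MvPolynomial (Fin n) (MvPolynomial (Fin n) R))) c = C (C c) from rfl]
  rw [C_mul_monomial, C_mul_monomial, mul_comm c]

lemma hs_monomial (b a : Fin n →₀ ℕ) (c : R) :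
    hs b (monomial a c) = monomial (a - b) ((bp a b : R) * c) := by
  rw [hs_apply, tay_monomial, coeff_sum]
  simp_rw [coeff_monomial]
  by_cases h : b ≤ a
  · rw [Finset.sum_eq_single (Finsupp.equivFunOnFinite b)]
    · simp
    · intro p _ hp
      rw [if_neg]
      intro h2
      exact hp (by rw [← h2]; simp)
    · intro h3
      exfalso
      apply h3
      rw [Fintype.mem_piFinset]
      intro i
      rw [Finset.mem_range]
      exact Nat.lt_succ_of_le (h i)
  · rw [bp_eq_zero h]
    rw [Finset.sum_eq_zero]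
    · simp
    · intro p hp
      rw [if_neg]
      intro h2
      apply h
      rw [← h2]
      intro i
      rw [Fintype.mem_piFinset] at hp
      have := hp i
      rw [Finset.mem_range] at this
      simpa using Nat.lt_succ_iff.mp this

lemma hs_zero (P : MvPolynomial (Fin n) R) : hs 0 P = P := by
  induction P using MvPolynomial.induction_on' with
  | monomial a c => rw [hs_monomial]; simp [bp]
  | add p q hp hq => rw [map_add, hp, hq]

lemma bp_mul (a b c : Fin n →₀ ℕ) : bp (a - b) c * bp a b = bp (b + c) c * bp a (b + c) := by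
  simp only [bp]
  rw [← Finset.prod_mul_distrib, ← Finset.prod_mul_distrib]
  refine Finset.prod_congr rfl fun i _ => ?_
  simp only [Finsupp.coe_tsub, Pi.sub_apply, Finsupp.coe_add, Pi.add_apply]
  have := Nat.choose_mul (n := a i) (k := b i + c i) (s := b i) (Nat.le_add_right _ _)
  rw [Nat.add_sub_cancel_left] at this
  rw [mul_comm, ← this, mul_comm, Nat.choose_symm_add]

lemma hs_hs (b c : Fin n →₀ ℕ) (P : MvPolynomial (Fin n) R) :
    hs c (hs b P) = (bp (b + c) c : MvPolynomial (Fin n) R) * hs (b + c) P := by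
  induction P using MvPolynomial.induction_on' with
  | monomial a x =>
    rw [hs_monomial, hs_monomial, hs_monomial]
    rw [show ((bp (b + c) c : ℕ) : MvPolynomial (Fin n) R) = C ((bp (b + c) c : ℕ) : R) by simp]
    rw [C_mul_monomial, ← mul_assoc, ← mul_assoc, tsub_add_eq_tsub_tsub]
    congr 2
    rw [← Nat.cast_mul, ← Nat.cast_mul, bp_mul]
  | add p q hp hq => rw [map_add, map_add, hp, hq, map_add, mul_add]

lemma hs_C_mul (b : Fin n →₀ ℕ) (c : R) (P : MvPolynomial (Fin n) R) :
    hs b (C c * P) = C c * hs b P := by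
  rw [← smul_eq_C_mul, ← smul_eq_C_mul, map_smul]

lemma hs_map {S : Type*} [CommRing S] (f : R →+* S) (b : Fin n →₀ ℕ) (P : MvPolynomial (Fin n) R) :
    hs b (map f P) = map f (hs b P) := by
  induction P using MvPolynomial.induction_on' with
  | monomial a x => rw [map_monomial, hs_monomial, hs_monomial, map_monomial]; simp
  | add p q hp hq => rw [map_add, map_add, hp, hq, map_add, map_add]

lemma bp_single (i : Fin n) (a : Fin n →₀ ℕ) : bp a (Finsupp.single i 1) = a i := by
  rw [bp, Finset.prod_eq_single i]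
  · simp
  · intro j _ hj
    rw [Finsupp.single_eq_of_ne hj]; simp
  · simp

lemma hs_single (i : Fin n) (P : MvPolynomial (Fin n) R) :
    hs (Finsupp.single i 1) P = pderiv i P := by
  induction P using MvPolynomial.induction_on' with
  | monomial a x =>
    rw [hs_monomial, pderiv_monomial, bp_single, mul_comm]
  | add p q hp hq => rw [map_add, hp, hq, map_add]

lemma pderiv_hs (i : Fin n) (b : Fin n →₀ ℕ) (P : MvPolynomial (Fin n) R) :
    pderiv i (hs b P) = ((b i + 1 : ℕ) : MvPolynomial (Fin n) R) * hs (b + Finsupp.single i 1) P := by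
  rw [← hs_single, hs_hs, bp_single]
  simp

end

end Pool.Agent.Helper71.SUB
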