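import Mathlib
import Pool.Agent.Helper71.SUB.HS

open MvPolynomial

namespace Pool.Agent.Helper71.SUB

noncomputable section

section One

variable {K : Type*} [Field K]

/-- the Euler derivation in one variable -/
def th : Polynomial K →ₗ[K] Polynomial K where
  toFun g := Polynomial.X * Polynomial.derivative g
  map_add' p q := by simp [mul_add]
  map_smul' c p := by simp

lemma coeff_th (g : Polynomial K) (N : ℕ) : (th g).coeff N = (N : K) * g.coeff N := by
  show (Polynomial.X * Polynomial.derivative g).coeff N = _
  cases N with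
  | zero => simp
  | succ N =>
    rw [Polynomial.coeff_X_mul, Polynomial.coeff_derivative]
    push_cast
    ring

lemma coeff_th_iter (l : ℕ) (g : Polynomial K) (N : ℕ) :
    (th^[l] g).coeff N = (N : K) ^ l * g.coeff N := by
  induction l with
  | zero => simp
  | succ l ih =>
    rw [Function.iterate_succ_apply', coeff_th, ih, pow_succ]
    ring

lemma natDegree_th_iter_le (l : ℕ) (g : Polynomial K) :
    (th^[l] g).natDegree ≤ g.natDegree := by
  rw [Polynomial.natDegree_le_iff_coeff_eq_zero]
  intro N hN
  rw [coeff_th_iter, Polynomial.coeff_eq_zero_of_natDegree_lt hN, mul_zero]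

lemma coeff_prod_le {ι : Type*} (s : Finset ι) (f : ι → Polynomial K) (d : ι → ℕ)
    (h : ∀ i ∈ s, (f i).natDegree ≤ d i) :
    (∏ i ∈ s, f i).natDegree ≤ ∑ i ∈ s, d i ∧
    (∏ i ∈ s, f i).coeff (∑ i ∈ s, d i) = ∏ i ∈ s, (f i).coeff (d i) := by
  classical
  induction s using Finset.induction_on with
  | empty => simp
  | insert a s ha ih =>
    obtain ⟨h1, h2⟩ := ih (fun i hi => h i (Finset.mem_insert_of_mem hi))
    have h3 := h a (Finset.mem_insert_self a s)
    rw [Finset.prod_insert ha, Finset.sum_insert ha, Finset.prod_insert ha]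
    refine ⟨(Polynomial.natDegree_mul_le).trans (by omega), ?_⟩
    rw [Polynomial.coeff_mul_add_eq_of_natDegree_le h3 h1, h2]

lemma det_th_distinct [CharZero K] {k : ℕ} (g : Fin k → Polynomial K) (h0 : ∀ j, g j ≠ 0)
    (hd : Function.Injective (fun j => (g j).natDegree)) :
    (Matrix.of (fun l j : Fin k => th^[(l : ℕ)] (g j))).det ≠ 0 := by
  intro h
  have h1 : ((Matrix.of (fun l j : Fin k => th^[(l : ℕ)] (g j))).det).coeff
      (∑ j, (g j).natDegree)
      = (Matrix.of (fun l j : Fin k => (g j).leadingCoeff *
          (Matrix.vandermonde (fun j => ((g j).natDegree : K))).transpose l j)).det := by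
    rw [Matrix.det_apply, Matrix.det_apply, Polynomial.finsetSum_coeff]
    refine Finset.sum_congr rfl fun σ _ => ?_
    rw [Polynomial.coeff_smul]
    congr 1
    simp only [Matrix.of_apply]
    rw [(coeff_prod_le Finset.univ (fun j => th^[((σ j : Fin k) : ℕ)] (g j))
      (fun j => (g j).natDegree) (fun j _ => natDegree_th_iter_le _ _)).2]
    refine Finset.prod_congr rfl fun j _ => ?_
    rw [coeff_th_iter, Matrix.transpose_apply, Matrix.vandermonde_apply, mul_comm]
    rfl
  rw [h, Polynomial.coeff_zero, Matrix.det_mul_row, Matrix.det_transpose] at h1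
  have h2 : (Matrix.vandermonde (fun j => ((g j).natDegree : K))).det ≠ 0 := by
    rw [Matrix.det_vandermonde_ne_zero_iff]
    intro i j hij
    have hij' : ((g i).natDegree : K) = ((g j).natDegree : K) := hij
    exact hd (by simpa using hij')
  have h3 : (∏ j, (g j).leadingCoeff) ≠ 0 :=
    Finset.prod_ne_zero_iff.mpr fun j _ => by simpa using h0 j
  exact mul_ne_zero h3 h2 h1.symm

lemma det_th [CharZero K] {k : ℕ} : ∀ (N : ℕ) (g : Fin k → Polynomial K), ∑ j, (g j).natDegree = N →
    (∀ c : Fin k → K, ∑ j, c j • g j = 0 → c = 0) →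
    (Matrix.of (fun l j : Fin k => th^[(l : ℕ)] (g j))).det ≠ 0 := by
  intro N
  induction N using Nat.strong_induction_on with
  | _ N IH =>
    intro g hN hlin
    have h0 : ∀ j, g j ≠ 0 := by
      intro j hj
      have := hlin (Pi.single j 1) (by
        rw [Finset.sum_eq_single j]
        · simp [hj]
        · intro i _ hi; simp [Pi.single_eq_of_ne hi]
        · simp)
      have h2 := congrFun this j
      simp at h2
    by_cases hd : Function.Injective (fun j => (g j).natDegree)
    · exact det_th_distinct g h0 hd
    · simp only [Function.Injective] at hd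
      push Not at hd
      obtain ⟨i, j, hij, hne⟩ := hd
      set a : K := (g j).leadingCoeff / (g i).leadingCoeff with ha
      have hli : (g i).leadingCoeff ≠ 0 := by simpa using h0 i
      have hlj : (g j).leadingCoeff ≠ 0 := by simpa using h0 j
      set q : Polynomial K := g j - a • g i with hq
      have hq0 : q ≠ 0 := by
        intro hq0
        have := hlin (Pi.single j 1 - Pi.single i a) (by
          simp only [Pi.sub_apply, sub_smul, Finset.sum_sub_distrib]
          rw [Finset.sum_eq_single j (by intro l _ hl; simp [Pi.single_eq_of_ne hl]) (by simp),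
            Finset.sum_eq_single i (by intro l _ hl; simp [Pi.single_eq_of_ne hl]) (by simp)]
          simpa using hq0)
        have h2 := congrFun this j
        simp [Pi.single_eq_of_ne (Ne.symm hne)] at h2
      have hane : a ≠ 0 := div_ne_zero hlj hli
      have hqd : q.natDegree < (g j).natDegree := by
        have e1 : q.coeff (g j).natDegree = 0 := by
          rw [hq, Polynomial.coeff_sub, Polynomial.coeff_smul]
          have e2 : (g i).coeff (g j).natDegree = (g i).leadingCoeff := by
            rw [← hij]; rfl
          rw [e2, ha, smul_eq_mul, div_mul_cancel₀ _ hli]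
          exact sub_self _
        have e3 : q.natDegree ≤ (g j).natDegree := by
          refine (Polynomial.natDegree_sub_le _ _).trans ?_
          refine max_le le_rfl ?_
          refine (Polynomial.natDegree_smul_le _ _).trans ?_
          exact le_of_eq hij
        rcases lt_or_eq_of_le e3 with e4 | e4
        · exact e4
        · exfalso
          rw [← e4] at e1
          exact hq0 (Polynomial.leadingCoeff_eq_zero.mp e1)
      set g' : Fin k → Polynomial K := Function.update g j q with hg'
      have hsum : ∑ l, (g' l).natDegree < N := by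
        rw [← hN]
        refine Finset.sum_lt_sum ?_ ⟨j, Finset.mem_univ j, ?_⟩
        · intro l _
          by_cases hl : l = j
          · subst hl; rw [hg', Function.update_self]; exact hqd.le
          · rw [hg', Function.update_of_ne hl]
        · rw [hg', Function.update_self]; exact hqd
      have hlin' : ∀ c : Fin k → K, ∑ l, c l • g' l = 0 → c = 0 := by
        intro c hc
        have h1 : ∑ l, (c l - (Pi.single i (c j * a) : Fin k → K) l) • g l = 0 := by
          simp only [sub_smul, Finset.sum_sub_distrib]
          rw [Finset.sum_eq_single (f := fun l => (Pi.single i (c j * a) : Fin k → K) l • g l) i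
            (by intro l _ hl; simp [Pi.single_eq_of_ne hl]) (by simp)]
          rw [Pi.single_eq_same]
          rw [← Finset.add_sum_erase _ _ (Finset.mem_univ j)] at hc ⊢
          have h2 : ∑ l ∈ Finset.univ.erase j, c l • g' l
              = ∑ l ∈ Finset.univ.erase j, c l • g l := by
            refine Finset.sum_congr rfl fun l hl => ?_
            rw [hg', Function.update_of_ne (Finset.ne_of_mem_erase hl)]
          rw [h2, hg', Function.update_self, hq, smul_sub, smul_smul] at hc
          rw [← hc]
          abel
        have h2 := hlin _ h1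
        have h3 : c j = 0 := by
          have := congrFun h2 j
          simpa [Pi.single_eq_of_ne (Ne.symm hne)] using this
        funext l
        have := congrFun h2 l
        rw [h3] at this
        simpa using this
      have hdet := IH _ hsum g' rfl hlin'
      have heq : (Matrix.of (fun l m : Fin k => th^[(l : ℕ)] (g' m)))
          = (Matrix.of (fun l m : Fin k => th^[(l : ℕ)] (g m))).updateCol j
            (fun l => (Matrix.of (fun l m : Fin k => th^[(l : ℕ)] (g m))) l j
              + (Polynomial.C (-a)) • (Matrix.of (fun l m : Fin k => th^[(l : ℕ)] (g m))) l i) := by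
        ext1 l m
        by_cases hm : m = j
        · subst hm
          rw [Matrix.updateCol_self]
          simp only [Matrix.of_apply]
          rw [hg', Function.update_self, hq]
          ext N
          simp only [Polynomial.coeff_add, coeff_th_iter, Polynomial.coeff_sub,
            Polynomial.coeff_smul, smul_eq_mul, Polynomial.coeff_C_mul]
          ring
        · rw [Matrix.updateCol_ne hm]
          simp only [Matrix.of_apply]
          rw [hg', Function.update_of_ne hm]
      rw [heq, Matrix.det_updateCol_add_smul_self _ (Ne.symm hne)] at hdet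
      exact hdet

end One

lemma exists_rows {S : Type*} [CommRing S] {k : ℕ} (T : Fin k → Set (Fin k → S))
    (M : Matrix (Fin k) (Fin k) S) (hM : ∀ l, M l ∈ Submodule.span S (T l))
    (hdet : M.det ≠ 0) :
    ∃ N : Matrix (Fin k) (Fin k) S, (∀ l, N l ∈ T l) ∧ N.det ≠ 0 := by
  classical
  by_contra hcon
  push Not at hcon
  have key : ∀ s : Finset (Fin k), ∀ M : Matrix (Fin k) (Fin k) S,
      (∀ l ∈ s, M l ∈ Submodule.span S (T l)) → (∀ l, l ∉ s → M l ∈ T l) → M.det = 0 := by
    intro s
    induction s using Finset.induction_on with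
    | empty => intro M _ h2; exact hcon M (fun l => h2 l (Finset.notMem_empty l))
    | insert a s ha ih =>
      intro M h1 h2
      have h3 : ∀ x ∈ Submodule.span S (T a), (M.updateRow a x).det = 0 := by
        intro x hx
        induction hx using Submodule.span_induction with
        | mem x hx =>
          apply ih
          · intro l hl
            have hne : l ≠ a := fun h => ha (h ▸ hl)
            rw [Matrix.updateRow_ne hne]
            exact h1 l (Finset.mem_insert_of_mem hl)
          · intro l hl
            by_cases hla : l = a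
            · subst hla; rw [Matrix.updateRow_self]; exact hx
            · rw [Matrix.updateRow_ne hla]
              exact h2 l (by simp [hla, hl])
        | zero =>
          apply Matrix.det_eq_zero_of_row_eq_zero a
          intro j
          rw [Matrix.updateRow_self]; rfl
        | add x y _ _ hx hy => rw [Matrix.det_updateRow_add, hx, hy, add_zero]
        | smul c x _ hx => rw [Matrix.det_updateRow_smul, hx, mul_zero]
      have h4 := h3 (M a) (h1 a (Finset.mem_insert_self a s))
      rwa [Matrix.updateRow_eq_self] at h4
  exact hdet (key Finset.univ M (fun l _ => hM l) (fun l hl => absurd (Finset.mem_univ l) hl))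

section Multi

variable {K : Type*} [Field K] {n : ℕ}

/-- weight of an exponent in the Kronecker substitution -/
def wt (D : ℕ) (a : Fin n →₀ ℕ) : ℕ := ∑ i : Fin n, D ^ (i : ℕ) * a i

/-- Kronecker substitution -/
def kr (D : ℕ) : MvPolynomial (Fin n) K →ₐ[K] Polynomial K :=
  aeval (fun i => Polynomial.X ^ (D ^ (i : ℕ)))

lemma kr_monomial (D : ℕ) (a : Fin n →₀ ℕ) (c : K) :
    kr D (monomial a c) = Polynomial.monomial (wt D a) c := by
  rw [kr, aeval_monomial, Finsupp.prod_fintype _ _ (by intro i; simp)]
  simp_rw [← pow_mul]
  rw [Finset.prod_pow_eq_pow_sum, ← Polynomial.C_mul_X_pow_eq_monomial, Polynomial.algebraMap_eq]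
  rfl

/-- Euler type derivation -/
def dl (D : ℕ) : MvPolynomial (Fin n) K →ₗ[K] MvPolynomial (Fin n) K where
  toFun P := ∑ i : Fin n, ((D ^ (i : ℕ) : ℕ) : MvPolynomial (Fin n) K) * (X i * pderiv i P)
  map_add' p q := by simp [mul_add, Finset.sum_add_distrib]
  map_smul' c p := by
    simp only [Derivation.map_smul, RingHom.id_apply, Finset.smul_sum]
    refine Finset.sum_congr rfl fun i _ => ?_
    simp only [smul_eq_C_mul]
    ring

lemma dl_apply (D : ℕ) (P : MvPolynomial (Fin n) K) :
    dl D P = ∑ i : Fin n, ((D ^ (i : ℕ) : ℕ) : MvPolynomial (Fin n) K) * (X i * pderiv i P) := rfl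

lemma dl_mul (D : ℕ) (P Q : MvPolynomial (Fin n) K) :
    dl D (P * Q) = dl D P * Q + P * dl D Q := by
  simp only [dl_apply, Derivation.leibniz, smul_eq_mul, Finset.sum_mul, Finset.mul_sum]
  rw [← Finset.sum_add_distrib]
  refine Finset.sum_congr rfl fun i _ => ?_
  ring

lemma dl_monomial (D : ℕ) (a : Fin n →₀ ℕ) (c : K) :
    dl D (monomial a c) = monomial a ((wt D a : K) * c) := by
  rw [dl_apply, wt]
  have h : ∀ i : Fin n, ((D ^ (i : ℕ) : ℕ) : MvPolynomial (Fin n) K)
      * (X i * pderiv i (monomial a c)) = monomial a (((D ^ (i : ℕ) * a i : ℕ) : K) * c) := by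
    intro i
    rw [pderiv_monomial, X, monomial_mul,
      show ((D ^ (i : ℕ) : ℕ) : MvPolynomial (Fin n) K) = C ((D ^ (i : ℕ) : ℕ) : K) by simp,
      C_mul_monomial]
    by_cases h0 : a i = 0
    · simp [h0]
    · have h1 : Finsupp.single i 1 ≤ a := by
        rw [Finsupp.single_le_iff]; omega
      rw [add_tsub_cancel_of_le h1]
      congr 1
      push_cast
      ring
  rw [Finset.sum_congr rfl (fun i _ => h i), ← map_sum]
  congr 1
  push_cast
  rw [Finset.sum_mul]

lemma kr_dl (D : ℕ) (P : MvPolynomial (Fin n) K) : kr D (dl D P) = th (kr D P) := by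
  induction P using MvPolynomial.induction_on' with
  | monomial a x =>
    rw [dl_monomial, kr_monomial, kr_monomial]
    ext N
    rw [coeff_th, Polynomial.coeff_monomial, Polynomial.coeff_monomial]
    split_ifs with h
    · rw [h]
    · simp
  | add p q hp hq => rw [map_add, map_add, hp, hq, map_add, map_add]

lemma kr_dl_iter (D l : ℕ) (P : MvPolynomial (Fin n) K) :
    kr D ((dl D)^[l] P) = th^[l] (kr D P) := by
  induction l with
  | zero => rfl
  | succ l ih => rw [Function.iterate_succ_apply', Function.iterate_succ_apply', kr_dl, ih]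

lemma wt_inj (D : ℕ) (a b : Fin n →₀ ℕ) (ha : ∀ i, a i < D) (hb : ∀ i, b i < D)
    (h : wt D a = wt D b) : a = b := by
  have e : ∀ (a : Fin n →₀ ℕ) (ha : ∀ i, a i < D),
      ((finFunctionFinEquiv (fun i => (⟨a i, ha i⟩ : Fin D))) : ℕ) = wt D a := by
    intro a ha
    rw [finFunctionFinEquiv_apply_val, wt]
    exact Finset.sum_congr rfl fun i _ => mul_comm _ _
  have h1 : finFunctionFinEquiv (fun i => (⟨a i, ha i⟩ : Fin D))
      = finFunctionFinEquiv (fun i => (⟨b i, hb i⟩ : Fin D)) := by
    apply Fin.ext
    rw [e a ha, e b hb, h]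
  have h2 := finFunctionFinEquiv.injective h1
  ext i
  have h3 := congrFun h2 i
  exact congrArg Fin.val h3

lemma kr_inj (D : ℕ) (P : MvPolynomial (Fin n) K) (hP : ∀ a ∈ P.support, ∀ i, a i < D)
    (h : kr D P = 0) : P = 0 := by
  classical
  by_contra hne
  obtain ⟨a, ha⟩ := Finset.nonempty_iff_ne_empty.mpr (fun h0 => hne (support_eq_empty.mp h0))
  have h1 : kr D P = ∑ b ∈ P.support, Polynomial.monomial (wt D b) (coeff b P) := by
    conv_lhs => rw [P.as_sum, map_sum]
    exact Finset.sum_congr rfl fun b _ => kr_monomial D b _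
  have h2 : (kr D P).coeff (wt D a) = coeff a P := by
    rw [h1, Polynomial.finsetSum_coeff, Finset.sum_eq_single a]
    · rw [Polynomial.coeff_monomial, if_pos rfl]
    · intro b hb hba
      rw [Polynomial.coeff_monomial, if_neg]
      intro h3
      exact hba (wt_inj D b a (hP b hb) (hP a ha) h3)
    · intro h3; exact absurd ha h3
  rw [h, Polynomial.coeff_zero] at h2
  exact (mem_support_iff.mp ha) h2.symm

/-- generalized Wronskians -/
theorem gw [CharZero K] {k : ℕ} (f : Fin k → MvPolynomial (Fin n) K)
    (hlin : ∀ c : Fin k → K, ∑ j, c j • f j = 0 → c = 0) :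
    ∃ b : Fin k → (Fin n →₀ ℕ), (∀ l, ∑ i, b l i ≤ (l : ℕ)) ∧
      (Matrix.of (fun l j : Fin k => hs (b l) (f j))).det ≠ 0 := by
  classical
  set D : ℕ := 1 + ∑ j, (f j).totalDegree with hD
  have hdeg : ∀ j, ∀ a ∈ (f j).support, ∀ i, a i < D := by
    intro j a ha i
    have h1 : a i ≤ a.sum (fun _ e => e) := by
      rw [Finsupp.sum_fintype _ _ (by intro i; rfl)]
      exact Finset.single_le_sum (f := fun i => a i) (fun _ _ => Nat.zero_le _) (Finset.mem_univ i)
    have h2 := le_totalDegree ha
    have h3 : (f j).totalDegree ≤ ∑ j, (f j).totalDegree :=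
      Finset.single_le_sum (f := fun j => (f j).totalDegree) (fun _ _ => Nat.zero_le _)
        (Finset.mem_univ j)
    omega
  set M : Matrix (Fin k) (Fin k) (MvPolynomial (Fin n) K) :=
    Matrix.of (fun l j : Fin k => (dl D)^[(l : ℕ)] (f j)) with hMdef
  have hdet : M.det ≠ 0 := by
    intro h0
    have h1 : (Matrix.of (fun l j : Fin k => th^[(l : ℕ)] (kr D (f j)))).det = 0 := by
      have h2 := congrArg (kr D) h0
      rw [map_zero, AlgHom.map_det] at h2
      rw [← h2]
      congr 1
      ext1 l j
      simp only [Matrix.of_apply, AlgHom.mapMatrix_apply, Matrix.map_apply, hMdef]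
      rw [kr_dl_iter]
    refine det_th _ (fun j => kr D (f j)) rfl ?_ h1
    intro c hc
    apply hlin
    apply kr_inj D
    · intro a ha i
      have h3 : a ∈ (∑ j, c j • f j).support := ha
      have h4 := support_sum h3
      rw [Finset.mem_biUnion] at h4
      obtain ⟨j, _, hj⟩ := h4
      exact hdeg j a (support_smul hj) i
    · rw [map_sum]
      simpa only [map_smul] using hc
  set T : Fin k → Set (Fin k → MvPolynomial (Fin n) K) :=
    fun l => {v | ∃ b : Fin n →₀ ℕ, ∑ i, b i ≤ (l : ℕ) ∧ v = fun j => hs b (f j)} with hT
  set V : ℕ → Submodule (MvPolynomial (Fin n) K) (Fin k → MvPolynomial (Fin n) K) :=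
    fun l => Submodule.span _ {v | ∃ b : Fin n →₀ ℕ, ∑ i, b i ≤ l ∧ v = fun j => hs b (f j)} with hV
  have hmono : ∀ l, V l ≤ V (l + 1) := by
    intro l
    apply Submodule.span_mono
    rintro v ⟨b, hb, rfl⟩
    exact ⟨b, by omega, rfl⟩
  have hstep : ∀ l, ∀ v ∈ V l, (fun j => dl D (v j)) ∈ V (l + 1) := by
    intro l v hv
    induction hv using Submodule.span_induction with
    | mem v hv =>
      obtain ⟨b, hb, rfl⟩ := hv
      have h1 : (fun j => dl D (hs b (f j))) = ∑ i : Fin n,
          (((D ^ (i : ℕ) : ℕ) : MvPolynomial (Fin n) K) * X i * ((b i + 1 : ℕ) : MvPolynomial (Fin n) K))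
            • (fun j => hs (b + Finsupp.single i 1) (f j)) := by
        funext j
        rw [dl_apply, Finset.sum_apply]
        refine Finset.sum_congr rfl fun i _ => ?_
        rw [pderiv_hs, Pi.smul_apply, smul_eq_mul]
        ring
      rw [h1]
      refine Submodule.sum_mem _ fun i _ => Submodule.smul_mem _ _ (Submodule.subset_span ?_)
      refine ⟨b + Finsupp.single i 1, ?_, rfl⟩
      simp only [Finsupp.coe_add, Pi.add_apply, Finset.sum_add_distrib]
      rw [Finset.sum_eq_single (f := fun x => (Finsupp.single i 1 : Fin n →₀ ℕ) x) i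
        (by intro x _ hx; exact Finsupp.single_eq_of_ne hx) (by simp)]
      simpa using hb
    | zero =>
      have : (fun j : Fin k => dl D ((0 : Fin k → MvPolynomial (Fin n) K) j)) = 0 := by
        funext j; simp
      rw [this]; exact Submodule.zero_mem _
    | add x y _ _ hx hy =>
      have : (fun j : Fin k => dl D ((x + y) j)) = (fun j => dl D (x j)) + (fun j => dl D (y j)) := by
        funext j; simp
      rw [this]; exact Submodule.add_mem _ hx hy
    | smul c x hx1 hx =>
      have : (fun j : Fin k => dl D ((c • x) j)) = (dl D c) • x + c • (fun j => dl D (x j)) := by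
        funext j; simp [dl_mul]
      rw [this]
      exact Submodule.add_mem _ (Submodule.smul_mem _ _ (hmono l hx1)) (Submodule.smul_mem _ _ hx)
  have hmem : ∀ l : ℕ, (fun j : Fin k => (dl D)^[l] (f j)) ∈ V l := by
    intro l
    induction l with
    | zero =>
      apply Submodule.subset_span
      refine ⟨0, by simp, ?_⟩
      funext j
      rw [hs_zero]; rfl
    | succ l ih =>
      have := hstep l _ ih
      simp only [Function.iterate_succ_apply']
      exact this
  obtain ⟨N, hN1, hN2⟩ := exists_rows T M (fun l => hmem l) hdet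
  choose b hb1 hb2 using hN1
  refine ⟨b, hb1, ?_⟩
  have : (Matrix.of (fun l j : Fin k => hs (b l) (f j))) = N := by
    ext1 l j
    rw [hb2 l]; rfl
  rw [this]; exact hN2

end Multi

end

end Pool.Agent.Helper71.SUB
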