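import Mathlib
import Pool.Agent.Helper71.SUB.HS

open MvPolynomial

namespace Pool.Agent.Helper71.SUB

noncomputable section

variable {n : ℕ}

/-- sum of the absolute values of the coefficients -/
def nm (P : MvPolynomial (Fin n) ℤ) : ℝ := ∑ a ∈ P.support, |((coeff a P : ℤ) : ℝ)|

lemma nm_nonneg (P : MvPolynomial (Fin n) ℤ) : 0 ≤ nm P :=
  Finset.sum_nonneg fun _ _ => abs_nonneg _

lemma nm_eq (P : MvPolynomial (Fin n) ℤ) (s : Finset (Fin n →₀ ℕ)) (h : P.support ⊆ s) :
    nm P = ∑ a ∈ s, |((coeff a P : ℤ) : ℝ)| := by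
  rw [nm]
  refine Finset.sum_subset h fun a _ ha => ?_
  rw [notMem_support_iff.mp ha]; simp

lemma nm_zero : nm (0 : MvPolynomial (Fin n) ℤ) = 0 := by simp [nm]

lemma nm_add_le (P Q : MvPolynomial (Fin n) ℤ) : nm (P + Q) ≤ nm P + nm Q := by
  classical
  rw [nm_eq P (P.support ∪ Q.support) Finset.subset_union_left,
    nm_eq Q (P.support ∪ Q.support) Finset.subset_union_right,
    nm_eq (P + Q) (P.support ∪ Q.support) support_add, ← Finset.sum_add_distrib]
  refine Finset.sum_le_sum fun a _ => ?_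
  rw [coeff_add, Int.cast_add]
  exact abs_add_le _ _

lemma nm_sum_le {ι : Type*} (s : Finset ι) (f : ι → MvPolynomial (Fin n) ℤ) :
    nm (∑ i ∈ s, f i) ≤ ∑ i ∈ s, nm (f i) := by
  classical
  induction s using Finset.induction_on with
  | empty => simp [nm_zero]
  | insert a s ha ih =>
    rw [Finset.sum_insert ha, Finset.sum_insert ha]
    exact (nm_add_le _ _).trans (by linarith)

lemma nm_monomial_le (a : Fin n →₀ ℕ) (c : ℤ) : nm (monomial a c) ≤ |(c : ℝ)| := by
  rw [nm_eq (monomial a c) {a} support_monomial_subset]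
  simp

lemma nm_mul_le (P Q : MvPolynomial (Fin n) ℤ) : nm (P * Q) ≤ nm P * nm Q := by
  have h : P * Q = ∑ a ∈ P.support, ∑ b ∈ Q.support,
      monomial (a + b) (coeff a P * coeff b Q) := by
    conv_lhs => rw [P.as_sum, Q.as_sum, Finset.sum_mul_sum]
    refine Finset.sum_congr rfl fun a _ => Finset.sum_congr rfl fun b _ => ?_
    rw [monomial_mul]
  rw [h]
  refine (nm_sum_le _ _).trans ?_
  rw [nm, nm, Finset.sum_mul_sum]
  refine Finset.sum_le_sum fun a _ => (nm_sum_le _ _).trans (Finset.sum_le_sum fun b _ => ?_)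
  refine (nm_monomial_le _ _).trans ?_
  rw [Int.cast_mul, abs_mul]

lemma nm_prod_le {ι : Type*} (s : Finset ι) (f : ι → MvPolynomial (Fin n) ℤ) (A : ℝ)
    (hf : ∀ i ∈ s, nm (f i) ≤ A) : nm (∏ i ∈ s, f i) ≤ A ^ s.card := by
  classical
  induction s using Finset.induction_on with
  | empty =>
    simp only [Finset.prod_empty, Finset.card_empty, pow_zero]
    rw [show (1 : MvPolynomial (Fin n) ℤ) = monomial 0 1 from rfl]
    exact (nm_monomial_le _ _).trans (by simp)
  | insert a s ha ih =>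
    rw [Finset.prod_insert ha, Finset.card_insert_of_notMem ha, pow_succ']
    have h1 := hf a (Finset.mem_insert_self a s)
    have h2 := ih (fun i hi => hf i (Finset.mem_insert_of_mem hi))
    exact (nm_mul_le _ _).trans (mul_le_mul h1 h2 (nm_nonneg _) ((nm_nonneg _).trans h1))

lemma coeff_le_nm (P : MvPolynomial (Fin n) ℤ) (a : Fin n →₀ ℕ) :
    |((coeff a P : ℤ) : ℝ)| ≤ nm P := by
  by_cases h : a ∈ P.support
  · exact Finset.single_le_sum (f := fun a => |((coeff a P : ℤ) : ℝ)|)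
      (fun _ _ => abs_nonneg _) h
  · rw [notMem_support_iff.mp h]; simpa using nm_nonneg P

lemma bp_le (a b : Fin n →₀ ℕ) : bp a b ≤ 2 ^ (∑ i, a i) := by
  rw [bp, ← Finset.prod_pow_eq_pow_sum]
  exact Finset.prod_le_prod' fun i _ => Nat.choose_le_two_pow _ _

lemma nm_hs_le (P : MvPolynomial (Fin n) ℤ) (b : Fin n →₀ ℕ) (D : ℕ)
    (h : ∀ a ∈ P.support, ∑ i, a i ≤ D) : nm (hs b P) ≤ 2 ^ D * nm P := by
  have h1 : hs b P = ∑ a ∈ P.support, monomial (a - b) ((bp a b : ℤ) * coeff a P) := by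
    conv_lhs => rw [P.as_sum, map_sum]
    exact Finset.sum_congr rfl fun a _ => hs_monomial b a _
  rw [h1]
  refine (nm_sum_le _ _).trans ?_
  rw [nm, Finset.mul_sum]
  refine Finset.sum_le_sum fun a ha => (nm_monomial_le _ _).trans ?_
  rw [Int.cast_mul, abs_mul]
  refine mul_le_mul_of_nonneg_right ?_ (abs_nonneg _)
  rw [Int.cast_natCast, Nat.abs_cast]
  have h2 := bp_le a b
  have h3 : 2 ^ (∑ i, a i) ≤ 2 ^ D := Nat.pow_le_pow_right (by norm_num) (h a ha)
  exact_mod_cast h2.trans h3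

lemma nm_det_le {k : ℕ} (M : Matrix (Fin k) (Fin k) (MvPolynomial (Fin n) ℤ)) (A : ℝ)
    (hM : ∀ i j, nm (M i j) ≤ A) : nm M.det ≤ (k.factorial : ℝ) * A ^ k := by
  rw [Matrix.det_apply]
  refine (nm_sum_le _ _).trans ?_
  have h : ∀ σ ∈ (Finset.univ : Finset (Equiv.Perm (Fin k))),
      nm ((Equiv.Perm.sign σ) • ∏ i, M (σ i) i) ≤ A ^ k := by
    intro σ _
    have h1 : nm (∏ i, M (σ i) i) ≤ A ^ k := by
      have := nm_prod_le Finset.univ (fun i => M (σ i) i) A (fun i _ => hM _ _)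
      simpa using this
    rcases Int.units_eq_one_or (Equiv.Perm.sign σ) with h2 | h2
    · rw [h2, one_smul]; exact h1
    · rw [h2]
      have h3 : nm (((-1 : ℤˣ)) • ∏ i, M (σ i) i) = nm (∏ i, M (σ i) i) := by
        rw [Units.neg_smul, one_smul, nm, nm, support_neg]
        refine Finset.sum_congr rfl fun a _ => ?_
        rw [coeff_neg, Int.cast_neg, abs_neg]
      rw [h3]; exact h1
  refine (Finset.sum_le_card_nsmul _ _ _ h).trans ?_
  rw [Finset.card_univ, Fintype.card_perm, Fintype.card_fin, nsmul_eq_mul]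

/-- Leibniz rule for products: a nonzero value splits -/
lemma hs_prod_ne {ι : Type*} (s : Finset ι) (F : ι → MvPolynomial (Fin n) ℤ) (x : Fin n → ℚ) :
    ∀ c : Fin n →₀ ℕ, aeval x (hs c (∏ i ∈ s, F i)) ≠ 0 →
    ∃ d : ι → (Fin n →₀ ℕ), ∑ i ∈ s, d i = c ∧ ∀ i ∈ s, aeval x (hs (d i) (F i)) ≠ 0 := by
  classical
  induction s using Finset.induction_on with
  | empty =>
    intro c hc
    refine ⟨fun _ => 0, ?_, by simp⟩
    rw [Finset.sum_empty]
    by_contra h0
    apply hc
    rw [Finset.prod_empty, show (1 : MvPolynomial (Fin n) ℤ) = monomial 0 1 from rfl, hs_monomial,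
      bp_eq_zero]
    · simp
    · intro h
      exact h0 (le_antisymm (fun i => Nat.zero_le _) h)
  | insert a s ha ih =>
    intro c hc
    rw [Finset.prod_insert ha, hs_mul, map_sum] at hc
    obtain ⟨e, he, hne⟩ := Finset.exists_ne_zero_of_sum_ne_zero hc
    rw [map_mul] at hne
    rw [Finset.HasAntidiagonal.mem_antidiagonal] at he
    obtain ⟨d, hd1, hd2⟩ := ih e.2 (right_ne_zero_of_mul hne)
    refine ⟨Function.update d a e.1, ?_, ?_⟩
    · rw [Finset.sum_insert ha, Function.update_self, ← he, ← hd1]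
      congr 1
      refine Finset.sum_congr rfl fun i hi => ?_
      rw [Function.update_of_ne (by rintro rfl; exact ha hi)]
    · intro i hi
      rw [Finset.mem_insert] at hi
      rcases hi with rfl | hi
      · rw [Function.update_self]; exact left_ne_zero_of_mul hne
      · rw [Function.update_of_ne (by rintro rfl; exact ha hi)]
        exact hd2 i hi

end

end Pool.Agent.Helper71.SUB
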