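import Mathlib
import Pool.Agent.Helper71.SUB.NM

open MvPolynomial

namespace Pool.Agent.Helper71.SUB

noncomputable section

lemma hasse_root_ne {p : Polynomial ℚ} (hp : p ≠ 0) (x : ℚ) :
    (Polynomial.hasseDeriv (p.rootMultiplicity x) p).eval x ≠ 0 := by
  have h1 := Polynomial.taylor_coeff x p (p.rootMultiplicity x)
  rw [← h1]
  obtain ⟨q, hq, hnd⟩ := Polynomial.exists_eq_pow_rootMultiplicity_mul_and_not_dvd p hp x
  intro h
  have h2 : Polynomial.taylor x p = Polynomial.X ^ (p.rootMultiplicity x) * Polynomial.taylor x q := by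
    conv_lhs => rw [hq]
    rw [Polynomial.taylor_mul]
    congr 1
    rw [Polynomial.taylor_apply]
    simp
  have h3 := Polynomial.coeff_X_pow_mul (Polynomial.taylor x q) (p.rootMultiplicity x) 0
  rw [zero_add] at h3
  rw [h2, h3, Polynomial.taylor_coeff_zero] at h
  exact hnd (Polynomial.dvd_iff_isRoot.mpr h)

lemma one_poly (g : Polynomial ℤ) (hg : g ≠ 0) (p : ℤ) (q : ℕ) (hq : 0 < q)
    (hpq : IsCoprime p (q : ℤ)) :
    ∃ s : ℕ, (q : ℤ) ^ s ∣ g.leadingCoeff ∧
      ((Polynomial.hasseDeriv s g).map (Int.castRingHom ℚ)).eval ((p : ℚ) / q) ≠ 0 := by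
  set G : Polynomial ℚ := g.map (Int.castRingHom ℚ) with hG
  have hG0 : G ≠ 0 := (Polynomial.map_ne_zero_iff (Int.cast_injective)).mpr hg
  set x : ℚ := (p : ℚ) / q with hx
  have hqQ : (q : ℚ) ≠ 0 := by exact_mod_cast hq.ne'
  refine ⟨G.rootMultiplicity x, ?_, ?_⟩
  · set s := G.rootMultiplicity x
    set l : Polynomial ℤ := Polynomial.C (q : ℤ) * Polynomial.X + Polynomial.C (-p) with hl
    have hlprim : l.IsPrimitive := by
      intro r hr
      rw [Polynomial.C_dvd_iff_dvd_coeff] at hr
      have h0 := hr 0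
      have h1 := hr 1
      have c0 : l.coeff 0 = -p := by
        rw [hl]
        simp only [Polynomial.coeff_add, Polynomial.coeff_C_mul, Polynomial.coeff_X_zero,
          mul_zero, Polynomial.coeff_C_zero, zero_add]
      have c1 : l.coeff 1 = (q : ℤ) := by
        rw [hl]
        simp only [Polynomial.coeff_add, Polynomial.coeff_C_mul, Polynomial.coeff_X_one,
          mul_one, Polynomial.coeff_C_succ, add_zero]
      rw [c0, dvd_neg] at h0
      rw [c1] at h1
      exact hpq.isUnit_of_dvd' h0 h1
    have hlpow : ∀ s : ℕ, (l ^ s).IsPrimitive := by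
      intro s
      induction s with
      | zero => rw [pow_zero]; exact Polynomial.isPrimitive_one
      | succ s ih => rw [pow_succ]; exact ih.mul hlprim
    have hlmap : (l ^ s).map (Int.castRingHom ℚ)
        = Polynomial.C ((q : ℚ) ^ s) * (Polynomial.X - Polynomial.C x) ^ s := by
      rw [Polynomial.map_pow, hl]
      have : (Polynomial.C (q : ℤ) * Polynomial.X + Polynomial.C (-p)).map (Int.castRingHom ℚ)
          = Polynomial.C (q : ℚ) * (Polynomial.X - Polynomial.C x) := by
        simp only [Polynomial.map_add, Polynomial.map_mul, Polynomial.map_C, Polynomial.map_X]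
        rw [mul_sub, ← Polynomial.C_mul, hx, mul_div_cancel₀ _ hqQ]
        simp [sub_eq_add_neg]
      rw [this, mul_pow, Polynomial.C_pow]
    have hdvd : l ^ s ∣ g := by
      apply Polynomial.IsPrimitive.dvd_of_fraction_map_dvd_fraction_map (K := ℚ) (hlpow s)
      rw [show algebraMap ℤ ℚ = Int.castRingHom ℚ from rfl, hlmap]
      have h2 : (Polynomial.X - Polynomial.C x) ^ s ∣ G := Polynomial.pow_rootMultiplicity_dvd G x
      refine (IsUnit.mul_left_dvd ?_).mpr h2
      exact Polynomial.isUnit_C.mpr (isUnit_iff_ne_zero.mpr (pow_ne_zero _ hqQ))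
    obtain ⟨h, hh⟩ := hdvd
    rw [hh, Polynomial.leadingCoeff_mul, Polynomial.leadingCoeff_pow]
    have : l.leadingCoeff = (q : ℤ) := by
      rw [hl, Polynomial.leadingCoeff_linear]
      exact_mod_cast hq.ne'
    rw [this]
    exact Dvd.intro _ rfl
  · have : ∀ s, (Polynomial.hasseDeriv s g).map (Int.castRingHom ℚ) = Polynomial.hasseDeriv s G := by
      intro s
      ext N
      rw [Polynomial.coeff_map, Polynomial.hasseDeriv_coeff, Polynomial.hasseDeriv_coeff, hG,
        Polynomial.coeff_map]
      simp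
    rw [this]
    exact hasse_root_ne hG0 x

/-- one variable case -/
lemma one_var (U : MvPolynomial (Fin 1) ℤ) (hU : U ≠ 0) (p : ℤ) (q : ℕ) (hq : 0 < q)
    (hpq : IsCoprime p (q : ℤ)) :
    ∃ s : Fin 1 →₀ ℕ, (q : ℝ) ^ (s 0) ≤ nm U ∧
      aeval (fun _ : Fin 1 => ((p : ℚ) / q)) (hs s U) ≠ 0 := by
  classical
  set φ : MvPolynomial (Fin 1) ℤ →ₐ[ℤ] Polynomial ℤ := aeval (fun _ => Polynomial.X) with hφ
  have hmon : ∀ (a : Fin 1 →₀ ℕ) (c : ℤ), φ (monomial a c) = Polynomial.monomial (a 0) c := by
    intro a c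
    rw [hφ, aeval_monomial, Finsupp.prod_fintype _ _ (by intro i; simp),
      ← Polynomial.C_mul_X_pow_eq_monomial]
    simp
  have hcoef : ∀ (P : MvPolynomial (Fin 1) ℤ) (N : ℕ),
      (φ P).coeff N = coeff (Finsupp.single 0 N) P := by
    intro P N
    induction P using MvPolynomial.induction_on' with
    | monomial a x =>
      rw [hmon, Polynomial.coeff_monomial, coeff_monomial]
      have : (a 0 = N) ↔ (a = Finsupp.single 0 N) := by
        constructor
        · intro h
          refine Finsupp.ext fun i => ?_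
          rw [Subsingleton.elim i 0, h]; simp
        · intro h; rw [h]; simp
      simp only [this]
    | add P Q hp hq => rw [map_add, Polynomial.coeff_add, hp, hq, coeff_add]
  have hder : ∀ (P : MvPolynomial (Fin 1) ℤ) (s : ℕ),
      Polynomial.hasseDeriv s (φ P) = φ (hs (Finsupp.single 0 s) P) := by
    intro P s
    induction P using MvPolynomial.induction_on' with
    | monomial a x =>
      rw [hmon, Polynomial.hasseDeriv_monomial, hs_monomial, hmon]
      simp [bp]
    | add P Q hp hq => rw [map_add, map_add, hp, hq, map_add, map_add]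
  have hφU : φ U ≠ 0 := by
    intro h
    apply hU
    ext a
    have h1 := hcoef U (a 0)
    rw [h, Polynomial.coeff_zero] at h1
    have h2 : a = Finsupp.single 0 (a 0) := by
      refine Finsupp.ext fun i => ?_
      rw [Subsingleton.elim i 0]; simp
    rw [coeff_zero, h2, ← h1]
  obtain ⟨s, hs1, hs2⟩ := one_poly (φ U) hφU p q hq hpq
  refine ⟨Finsupp.single 0 s, ?_, ?_⟩
  · have h1 : |((φ U).leadingCoeff : ℝ)| ≤ nm U := by
      rw [Polynomial.leadingCoeff, hcoef]
      exact coeff_le_nm _ _
    have h2 : ((q : ℤ) ^ s) ≤ |(φ U).leadingCoeff| := by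
      have h3 : (q : ℤ) ^ s ∣ |(φ U).leadingCoeff| := (dvd_abs _ _).mpr hs1
      exact Int.le_of_dvd (abs_pos.mpr (Polynomial.leadingCoeff_ne_zero.mpr hφU)) h3
    have h4 : ((q : ℝ) ^ s) ≤ |((φ U).leadingCoeff : ℝ)| := by exact_mod_cast h2
    simpa using h4.trans h1
  · rw [hder] at hs2
    have h5 : ∀ P : MvPolynomial (Fin 1) ℤ,
        ((φ P).map (Int.castRingHom ℚ)).eval ((p : ℚ) / q)
          = aeval (fun _ : Fin 1 => ((p : ℚ) / q)) P := by
      intro P
      induction P using MvPolynomial.induction_on' with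
      | monomial a x =>
        rw [hmon, Polynomial.map_monomial, Polynomial.eval_monomial, aeval_monomial,
          Finsupp.prod_fintype _ _ (by intro i; simp)]
        simp
      | add P Q hp hq =>
        rw [map_add, Polynomial.map_add, Polynomial.eval_add, hp, hq, map_add]
    rw [h5] at hs2
    exact hs2

end

end Pool.Agent.Helper71.SUB
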