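import Mathlib
import Pool.Agent.Helper71.SUB.HS

open MvPolynomial

namespace Pool.Agent.Helper71.SUB

noncomputable section

variable {n : ℕ} {R : Type*} [CommRing R]

/-- polynomials in the first variable -/
def e0 : MvPolynomial (Fin 1) R →ₐ[R] MvPolynomial (Fin (n + 1)) R := rename (fun _ => 0)

/-- polynomials in the other variables -/
def es : MvPolynomial (Fin n) R →ₐ[R] MvPolynomial (Fin (n + 1)) R := rename Fin.succ

/-- joined exponents -/
def cs (a : Fin 1 →₀ ℕ) (b : Fin n →₀ ℕ) : Fin (n + 1) →₀ ℕ := Finsupp.cons (a 0) b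

lemma cs_zero (a : Fin 1 →₀ ℕ) (b : Fin n →₀ ℕ) : cs a b 0 = a 0 := Finsupp.cons_zero _ _
lemma cs_succ (a : Fin 1 →₀ ℕ) (b : Fin n →₀ ℕ) (i : Fin n) : cs a b i.succ = b i :=
  Finsupp.cons_succ _ _ _

lemma cs_inj {a a' : Fin 1 →₀ ℕ} {b b' : Fin n →₀ ℕ} : cs a b = cs a' b' ↔ a = a' ∧ b = b' := by
  constructor
  · intro h
    obtain ⟨h1, h2⟩ := Finsupp.cons_injective2 h
    refine ⟨Finsupp.ext fun i => ?_, h2⟩
    rw [Subsingleton.elim i 0]; exact h1
  · rintro ⟨rfl, rfl⟩; rfl

lemma cs_surj (m : Fin (n + 1) →₀ ℕ) : m = cs (Finsupp.single 0 (m 0)) (Finsupp.tail m) := by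
  rw [cs, Finsupp.single_eq_same, Finsupp.cons_tail]

lemma cs_sub (a a' : Fin 1 →₀ ℕ) (b b' : Fin n →₀ ℕ) : cs a b - cs a' b' = cs (a - a') (b - b') := by
  refine Finsupp.ext fun i => ?_
  refine Fin.cases ?_ (fun j => ?_) i
  · simp [cs_zero]
  · simp [cs_succ]

lemma bp_cs (a a' : Fin 1 →₀ ℕ) (b b' : Fin n →₀ ℕ) : bp (cs a b) (cs a' b') = bp a a' * bp b b' := by
  rw [bp, Fin.prod_univ_succ, bp, bp]
  simp [cs_zero, cs_succ]

lemma mon_mon (a : Fin 1 →₀ ℕ) (b : Fin n →₀ ℕ) (c d : R) :
    e0 (monomial a c) * es (monomial b d) = monomial (cs a b) (c * d) := by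
  rw [e0, es, rename_monomial, rename_monomial, monomial_mul]
  suffices key : Finsupp.mapDomain (fun _ : Fin 1 => (0 : Fin (n + 1))) a
      + Finsupp.mapDomain Fin.succ b = cs a b by rw [key]
  refine Finsupp.ext fun i => ?_
  have inj0 : Function.Injective (fun _ : Fin 1 => (0 : Fin (n + 1))) :=
    fun x y _ => Subsingleton.elim x y
  refine Fin.cases ?_ (fun j => ?_) i
  · rw [Finsupp.add_apply, cs_zero]
    have h1 : Finsupp.mapDomain (fun _ : Fin 1 => (0 : Fin (n + 1))) a 0 = a 0 :=
      Finsupp.mapDomain_apply inj0 a 0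
    have h2 : Finsupp.mapDomain Fin.succ b (0 : Fin (n + 1)) = 0 := by
      apply Finsupp.mapDomain_of_notMem_range
      rintro ⟨j, hj⟩
      exact Fin.succ_ne_zero j hj
    rw [h2, add_zero]; exact h1
  · rw [Finsupp.add_apply, cs_succ]
    have h1 := Finsupp.mapDomain_apply (Fin.succ_injective n) b j
    have h2 : Finsupp.mapDomain (fun _ : Fin 1 => (0 : Fin (n + 1))) a j.succ = 0 := by
      apply Finsupp.mapDomain_of_notMem_range
      rintro ⟨j', hj⟩
      exact Fin.succ_ne_zero j hj.symm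
    rw [h2, zero_add]; exact h1

/-- bilinear induction -/
lemma bil (p : MvPolynomial (Fin 1) R → MvPolynomial (Fin n) R → Prop)
    (h1 : ∀ a c b d, p (monomial a c) (monomial b d))
    (h2 : ∀ u v w, p u w → p v w → p (u + v) w)
    (h3 : ∀ u v w, p u v → p u w → p u (v + w)) (u : MvPolynomial (Fin 1) R)
    (v : MvPolynomial (Fin n) R) : p u v := by
  induction u using MvPolynomial.induction_on' with
  | monomial a c =>
    induction v using MvPolynomial.induction_on' with
    | monomial b d => exact h1 a c b d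
    | add v w hv hw => exact h3 _ _ _ hv hw
  | add u w hu hw => exact h2 _ _ _ hu hw

lemma coeff_prod2 (s : Fin 1 →₀ ℕ) (t : Fin n →₀ ℕ) (U : MvPolynomial (Fin 1) R)
    (V : MvPolynomial (Fin n) R) :
    coeff (cs s t) (e0 U * es V) = coeff s U * coeff t V := by
  classical
  refine bil (fun U V => coeff (cs s t) (e0 U * es V) = coeff s U * coeff t V) ?_ ?_ ?_ U V
  · intro a c b d
    rw [mon_mon, coeff_monomial, coeff_monomial, coeff_monomial]
    by_cases h1 : a = s <;> by_cases h2 : b = t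
    · rw [if_pos (cs_inj.mpr ⟨h1, h2⟩), if_pos h1, if_pos h2]
    · rw [if_neg (fun h => h2 (cs_inj.mp h).2), if_neg h2, mul_zero]
    · rw [if_neg (fun h => h1 (cs_inj.mp h).1), if_neg h1, zero_mul]
    · rw [if_neg (fun h => h1 (cs_inj.mp h).1), if_neg h1, zero_mul]
  · intro u v w h1 h2
    rw [map_add, add_mul, coeff_add, h1, h2, coeff_add, add_mul]
  · intro u v w h1 h2
    rw [map_add, mul_add, coeff_add, h1, h2, coeff_add, mul_add]

lemma hs_prod2 (s : Fin 1 →₀ ℕ) (t : Fin n →₀ ℕ) (U : MvPolynomial (Fin 1) R)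
    (V : MvPolynomial (Fin n) R) :
    hs (cs s t) (e0 U * es V) = e0 (hs s U) * es (hs t V) := by
  refine bil (fun U V => hs (cs s t) (e0 U * es V) = e0 (hs s U) * es (hs t V)) ?_ ?_ ?_ U V
  · intro a c b d
    rw [mon_mon, hs_monomial, hs_monomial, hs_monomial, mon_mon, cs_sub, bp_cs]
    congr 1
    push_cast
    ring
  · intro u v w h1 h2
    rw [map_add, add_mul, map_add, h1, h2, map_add, map_add, add_mul]
  · intro u v w h1 h2
    rw [map_add, mul_add, map_add, h1, h2, map_add, map_add, mul_add]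

lemma aeval_prod2 {S : Type*} [CommRing S] [Algebra R S] (x : Fin (n + 1) → S)
    (U : MvPolynomial (Fin 1) R) (V : MvPolynomial (Fin n) R) :
    aeval x (e0 U * es V) = aeval (fun _ => x 0) U * aeval (fun i : Fin n => x i.succ) V := by
  rw [map_mul, e0, es, aeval_rename, aeval_rename]
  rfl

/-- rank decomposition -/
lemma dec (P : MvPolynomial (Fin (n + 1)) ℚ) (hP : P ≠ 0) (r0 : ℕ)
    (hr : ∀ a ∈ P.support, a 0 ≤ r0) :
    ∃ k : ℕ, 0 < k ∧ k ≤ r0 + 1 ∧ ∃ (ψ : Fin k → MvPolynomial (Fin 1) ℚ)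
      (φ : Fin k → MvPolynomial (Fin n) ℚ),
      (∀ c : Fin k → ℚ, ∑ j, c j • ψ j = 0 → c = 0) ∧
      (∀ c : Fin k → ℚ, ∑ j, c j • φ j = 0 → c = 0) ∧
      P = ∑ j, e0 (ψ j) * es (φ j) := by
  classical
  set g := finSuccEquiv ℚ n P with hg
  set Pt : Fin (r0 + 1) → MvPolynomial (Fin n) ℚ := fun t => g.coeff (t : ℕ) with hPt
  have hsum : P = ∑ t : Fin (r0 + 1), e0 (monomial (Finsupp.single 0 (t : ℕ)) 1) * es (Pt t) := by
    ext m
    rw [coeff_sum]
    conv_rhs => rw [cs_surj m]
    simp_rw [coeff_prod2, coeff_monomial]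
    by_cases hm : m 0 ≤ r0
    · rw [Finset.sum_eq_single (⟨m 0, by omega⟩ : Fin (r0 + 1))]
      · rw [if_pos rfl, one_mul, hPt, hg, finSuccEquiv_coeff_coeff, Finsupp.cons_tail]
      · intro t _ ht
        rw [if_neg, zero_mul]
        intro h
        apply ht
        apply Fin.ext
        have := congrArg (fun f => f 0) h
        simpa using this
      · simp
    · rw [Finset.sum_eq_zero]
      · by_contra hne
        exact hm (hr m (mem_support_iff.mpr hne))
      · intro t _
        rw [if_neg, zero_mul]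
        intro h
        apply hm
        have := congrArg (fun f => f 0) h
        simp at this
        omega
  set V : Submodule ℚ (MvPolynomial (Fin n) ℚ) := Submodule.span ℚ (Set.range Pt) with hV
  have : FiniteDimensional ℚ V := FiniteDimensional.span_of_finite ℚ (Set.finite_range Pt)
  set k := Module.finrank ℚ V with hk
  set B : Module.Basis (Fin k) ℚ V := Module.finBasis ℚ V with hB
  have hmem : ∀ t, Pt t ∈ V := fun t => Submodule.subset_span ⟨t, rfl⟩
  set c : Fin (r0 + 1) → Fin k → ℚ := fun t j => B.repr ⟨Pt t, hmem t⟩ j with hc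
  have hrep : ∀ t, Pt t = ∑ j, c t j • (B j : MvPolynomial (Fin n) ℚ) := by
    intro t
    have h1 := B.sum_repr ⟨Pt t, hmem t⟩
    have h2 := congrArg (Submodule.subtype V) h1
    rw [map_sum] at h2
    simp only [map_smul, Submodule.subtype_apply] at h2
    exact h2.symm
  set ψ : Fin k → MvPolynomial (Fin 1) ℚ :=
    fun j => ∑ t : Fin (r0 + 1), monomial (Finsupp.single 0 (t : ℕ)) (c t j) with hψ
  have hcoefψ : ∀ (t : Fin (r0 + 1)) j, coeff (Finsupp.single 0 (t : ℕ)) (ψ j) = c t j := by
    intro t j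
    rw [hψ]
    simp only [coeff_sum, coeff_monomial]
    rw [Finset.sum_eq_single t]
    · rw [if_pos rfl]
    · intro t' _ ht'
      rw [if_neg]
      intro h
      apply ht'
      apply Fin.ext
      have := congrArg (fun f => f 0) h
      simpa using this
    · simp
  have hfin : P = ∑ j, e0 (ψ j) * es (B j : MvPolynomial (Fin n) ℚ) := by
    rw [hsum]
    have h1 : ∀ t : Fin (r0 + 1), e0 (monomial (Finsupp.single 0 (t : ℕ)) 1) * es (Pt t)
        = ∑ j, e0 (monomial (Finsupp.single 0 (t : ℕ)) (c t j))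
          * es (B j : MvPolynomial (Fin n) ℚ) := by
      intro t
      rw [hrep t, map_sum, Finset.mul_sum]
      refine Finset.sum_congr rfl fun j _ => ?_
      rw [map_smul, mul_smul_comm, ← smul_mul_assoc, ← map_smul, smul_monomial, smul_eq_mul, mul_one]
    rw [Finset.sum_congr rfl (fun t _ => h1 t), Finset.sum_comm]
    refine Finset.sum_congr rfl fun j _ => ?_
    rw [hψ]
    simp only
    rw [map_sum, Finset.sum_mul]
  refine ⟨k, ?_, ?_, ψ, fun j => (B j : MvPolynomial (Fin n) ℚ), ?_, ?_, hfin⟩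
  · rcases Nat.eq_zero_or_pos k with h0 | h0
    · exfalso
      apply hP
      rw [hfin]
      apply Finset.sum_eq_zero
      intro j
      exact absurd j.2 (by omega)
    · exact h0
  · rw [hk, hV]
    have := finrank_range_le_card (R := ℚ) Pt
    rw [Fintype.card_fin] at this
    exact this
  · intro d hd
    have h1 : ∀ t, ∑ j, d j * c t j = 0 := by
      intro t
      have h2 := congrArg (coeff (Finsupp.single 0 (t : ℕ))) hd
      rw [coeff_sum, coeff_zero] at h2
      simpa only [coeff_smul, smul_eq_mul, hcoefψ] using h2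
    set lam : V →ₗ[ℚ] ℚ := ∑ j, d j • (B.coord j) with hlam
    have h3 : ∀ v (hv : v ∈ V), lam ⟨v, hv⟩ = 0 := by
      intro v hv
      have hv' := hv
      rw [hV] at hv'
      induction hv' using Submodule.span_induction with
      | mem x hx =>
        obtain ⟨t, rfl⟩ := hx
        rw [hlam]
        simp only [LinearMap.sum_apply, LinearMap.smul_apply, Module.Basis.coord_apply, smul_eq_mul]
        exact h1 t
      | zero =>
        have : (⟨0, hv⟩ : V) = 0 := rfl
        rw [this, map_zero]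
      | add x y hx hy h4 h5 =>
        have hx' : x ∈ V := hx
        have hy' : y ∈ V := hy
        have : (⟨x + y, hv⟩ : V) = ⟨x, hx'⟩ + ⟨y, hy'⟩ := rfl
        rw [this, map_add, h4 hx', h5 hy', add_zero]
      | smul q x hx h4 =>
        have hx' : x ∈ V := hx
        have : (⟨q • x, hv⟩ : V) = q • ⟨x, hx'⟩ := rfl
        rw [this, map_smul, h4 hx', smul_zero]
    funext j
    have h4 := h3 (B j) (B j).2
    rw [hlam] at h4
    simp only [LinearMap.sum_apply, LinearMap.smul_apply, Module.Basis.coord_apply, smul_eq_mul,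
      Subtype.coe_eta, Module.Basis.repr_self] at h4
    rw [Finset.sum_eq_single j (by intro l _ hl; simp [Finsupp.single_eq_of_ne hl]) (by simp)] at h4
    simpa using h4
  · intro d hd
    have h1 : ∑ j, d j • B j = 0 := by
      apply Subtype.ext
      have h2 : ((∑ j, d j • B j : V) : MvPolynomial (Fin n) ℚ)
          = ∑ j, d j • (B j : MvPolynomial (Fin n) ℚ) := by
        rw [AddSubmonoidClass.coe_finsetSum]
        rfl
      rw [h2, hd]; rfl
    have h3 := (Fintype.linearIndependent_iff.mp B.linearIndependent) d h1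
    funext j
    exact h3 j

end

end Pool.Agent.Helper71.SUB
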