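import Mathlib
import Pool.Agent.Helper71.SUB.NM
import Pool.Agent.Helper71.SUB.DEC

open MvPolynomial

namespace Pool.Agent.Helper71.SUB

noncomputable section

/-- the constant in Roth's lemma -/
def om : ℕ → ℝ → ℝ
  | 0, e => e
  | m + 1, e => om m (e ^ 2 / 12) / 2

lemma om_pos : ∀ (m : ℕ) (e : ℝ), 0 < e → 0 < om m e := by
  intro m
  induction m with
  | zero => intro e he; exact he
  | succ m ih =>
    intro e he
    rw [om]
    have := ih (e ^ 2 / 12) (by positivity)
    positivity

lemma om_le : ∀ (m : ℕ) (e : ℝ), 0 < e → e ≤ 1 → om m e ≤ e := by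
  intro m
  induction m with
  | zero => intro e _ _; exact le_rfl
  | succ m ih =>
    intro e he he1
    rw [om]
    have h1 : e ^ 2 ≤ e := by nlinarith
    have := ih (e ^ 2 / 12) (by positivity) (by linarith)
    linarith

lemma om_succ (m : ℕ) (e : ℝ) : om m (e ^ 2 / 12) = 2 * om (m + 1) e := by
  rw [om]; ring

lemma om_succ_le (m : ℕ) (e : ℝ) (he : 0 < e) (he1 : e ≤ 1) : om (m + 1) e ≤ e ^ 2 / 24 := by
  rw [om]
  have h1 : e ^ 2 ≤ e := by nlinarith
  have := om_le m (e ^ 2 / 12) (by positivity) (by linarith)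
  linarith

/-- degree bounds -/
def DB {n : ℕ} {R : Type*} [CommRing R] (P : MvPolynomial (Fin n) R) (r : Fin n → ℕ) : Prop :=
  ∀ a ∈ P.support, ∀ i, a i ≤ r i

section DBs

variable {n : ℕ} {R : Type*} [CommRing R]

lemma DB_mul {P Q : MvPolynomial (Fin n) R} {r s : Fin n → ℕ} (hP : DB P r) (hQ : DB Q s) :
    DB (P * Q) (fun i => r i + s i) := by
  classical
  intro a ha i
  obtain ⟨b, hb, c, hc, rfl⟩ := Finset.mem_add.mp (support_mul P Q ha)
  exact add_le_add (hP b hb i) (hQ c hc i)

lemma DB_prod {ι : Type*} (s : Finset ι) (f : ι → MvPolynomial (Fin n) R) (r : Fin n → ℕ)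
    (h : ∀ i ∈ s, DB (f i) r) : DB (∏ i ∈ s, f i) (fun i => s.card * r i) := by
  classical
  induction s using Finset.induction_on with
  | empty =>
    intro a ha i
    rw [Finset.prod_empty] at ha
    have h1 : a ∈ ({0} : Finset (Fin n →₀ ℕ)) := support_monomial_subset (R := R) ha
    rw [Finset.mem_singleton] at h1
    simp [h1]
  | insert b s hb ih =>
    rw [Finset.prod_insert hb, Finset.card_insert_of_notMem hb]
    have := DB_mul (h b (Finset.mem_insert_self b s))
      (ih (fun i hi => h i (Finset.mem_insert_of_mem hi)))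
    intro a ha i
    refine (this a ha i).trans (le_of_eq ?_)
    ring

lemma DB_sum {ι : Type*} (s : Finset ι) (f : ι → MvPolynomial (Fin n) R) (r : Fin n → ℕ)
    (h : ∀ i ∈ s, DB (f i) r) : DB (∑ i ∈ s, f i) r := by
  classical
  intro a ha i
  have h1 := support_sum ha
  rw [Finset.mem_biUnion] at h1
  obtain ⟨j, hj, hja⟩ := h1
  exact h j hj a hja i

lemma DB_hs {P : MvPolynomial (Fin n) R} {r : Fin n → ℕ} (hP : DB P r) (b : Fin n →₀ ℕ) :
    DB (hs b P) r := by
  classical
  have h1 : hs b P = ∑ a ∈ P.support, monomial (a - b) ((bp a b : R) * coeff a P) := by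
    conv_lhs => rw [P.as_sum, map_sum]
    exact Finset.sum_congr rfl fun a _ => hs_monomial b a _
  rw [h1]
  refine DB_sum _ _ _ fun a ha => ?_
  intro c hc i
  have h2 := support_monomial_subset hc
  rw [Finset.mem_singleton] at h2
  rw [h2, Finsupp.tsub_apply]
  exact (Nat.sub_le _ _).trans (hP a ha i)

lemma DB_det {k : ℕ} (M : Matrix (Fin k) (Fin k) (MvPolynomial (Fin n) R)) (r : Fin n → ℕ)
    (h : ∀ i j, DB (M i j) r) : DB M.det (fun i => k * r i) := by
  rw [Matrix.det_apply]
  refine DB_sum _ _ _ fun σ _ => ?_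
  have h1 := DB_prod Finset.univ (fun i => M (σ i) i) r (fun i _ => h _ _)
  rw [Finset.card_univ, Fintype.card_fin] at h1
  rcases Int.units_eq_one_or (Equiv.Perm.sign σ) with h2 | h2
  · rw [h2, one_smul]; exact h1
  · rw [h2, Units.neg_smul, one_smul]
    intro a ha i
    rw [support_neg] at ha
    exact h1 a ha i

end DBs

section Extract

variable {n : ℕ}

/-- coefficient of a power of the first variable -/
def exV (j : ℕ) (W : MvPolynomial (Fin (n + 1)) ℤ) : MvPolynomial (Fin n) ℤ :=
  ∑ c ∈ W.support, if c 0 = j then monomial (Finsupp.tail c) (coeff c W) else 0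

/-- coefficient of a monomial in the other variables -/
def exU (t : Fin n →₀ ℕ) (W : MvPolynomial (Fin (n + 1)) ℤ) : MvPolynomial (Fin 1) ℤ :=
  ∑ c ∈ W.support, if Finsupp.tail c = t then monomial (Finsupp.single 0 (c 0)) (coeff c W) else 0

lemma nm_exV (j : ℕ) (W : MvPolynomial (Fin (n + 1)) ℤ) : nm (exV j W) ≤ nm W := by
  refine (nm_sum_le _ _).trans ?_
  rw [nm]
  refine Finset.sum_le_sum fun c _ => ?_
  split_ifs
  · exact nm_monomial_le _ _
  · rw [nm_zero]; exact abs_nonneg _

lemma nm_exU (t : Fin n →₀ ℕ) (W : MvPolynomial (Fin (n + 1)) ℤ) : nm (exU t W) ≤ nm W := by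
  refine (nm_sum_le _ _).trans ?_
  rw [nm]
  refine Finset.sum_le_sum fun c _ => ?_
  split_ifs
  · exact nm_monomial_le _ _
  · rw [nm_zero]; exact abs_nonneg _

lemma coeff_exV (s : Fin 1 →₀ ℕ) (b : Fin n →₀ ℕ) (W : MvPolynomial (Fin (n + 1)) ℤ) :
    coeff b (exV (s 0) W) = coeff (cs s b) W := by
  classical
  rw [exV, coeff_sum]
  have h : ∀ c ∈ W.support, coeff b (if c 0 = s 0 then monomial (Finsupp.tail c) (coeff c W) else 0)
      = if c = cs s b then coeff c W else 0 := by
    intro c _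
    by_cases h1 : c = cs s b
    · rw [if_pos h1, if_pos (by rw [h1]; exact cs_zero s b), coeff_monomial, if_pos]
      rw [h1]; exact Finsupp.tail_cons _ _
    · rw [if_neg h1]
      split_ifs with h2
      · rw [coeff_monomial, if_neg]
        intro h3
        apply h1
        rw [← h3, cs, ← h2, Finsupp.cons_tail]
      · rw [coeff_zero]
  rw [Finset.sum_congr rfl h, Finset.sum_ite_eq']
  split_ifs with h1
  · rfl
  · exact (notMem_support_iff.mp h1).symm

lemma coeff_exU (s : Fin 1 →₀ ℕ) (t : Fin n →₀ ℕ) (W : MvPolynomial (Fin (n + 1)) ℤ) :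
    coeff s (exU t W) = coeff (cs s t) W := by
  classical
  rw [exU, coeff_sum]
  have h : ∀ c ∈ W.support, coeff s (if Finsupp.tail c = t then
      monomial (Finsupp.single (0 : Fin 1) (c 0)) (coeff c W) else 0)
      = if c = cs s t then coeff c W else 0 := by
    intro c _
    by_cases h1 : c = cs s t
    · rw [if_pos h1, if_pos (by rw [h1]; exact Finsupp.tail_cons _ _), coeff_monomial, if_pos]
      refine Finsupp.ext fun i => ?_
      rw [Subsingleton.elim i 0, Finsupp.single_eq_same, h1, cs_zero]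
    · rw [if_neg h1]
      split_ifs with h2
      · rw [coeff_monomial, if_neg]
        intro h3
        apply h1
        rw [cs, ← h2, ← h3, Finsupp.single_eq_same, Finsupp.cons_tail]
      · rw [coeff_zero]
  rw [Finset.sum_congr rfl h, Finset.sum_ite_eq']
  split_ifs with h1
  · rfl
  · exact (notMem_support_iff.mp h1).symm

lemma DB_exV (j : ℕ) (W : MvPolynomial (Fin (n + 1)) ℤ) (r : Fin (n + 1) → ℕ) (h : DB W r) :
    DB (exV j W) (fun i => r i.succ) := by
  classical
  refine DB_sum _ _ _ fun c hc => ?_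
  split_ifs
  · intro a ha i
    have h2 := support_monomial_subset ha
    rw [Finset.mem_singleton] at h2
    rw [h2, Finsupp.tail_apply]
    exact h c hc i.succ
  · intro a ha
    simp at ha

end Extract

lemma sum_lin (d r : ℝ) (hr : 0 < r) (n : ℕ) :
    ∑ i ∈ Finset.range n, (d - (i : ℝ) / r) = n * d - n * (n - 1) / (2 * r) := by
  induction n with
  | zero => simp
  | succ n ih =>
    rw [Finset.sum_range_succ, ih]
    push_cast
    field_simp
    ring

lemma sum_max (k r : ℕ) (hk : 0 < k) (hr : 0 < r) (hkr : k ≤ r + 1) (d : ℝ) (hd : 0 < d)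
    (hd1 : d ≤ 1) :
    (k : ℝ) * d ^ 2 / 4 ≤ ∑ i : Fin k, max 0 (d - ((i : ℕ) : ℝ) / r) := by
  have hrR : (0 : ℝ) < r := by exact_mod_cast hr
  rw [Fin.sum_univ_eq_sum_range (fun i => max 0 (d - (i : ℝ) / r)) k]
  set N := ⌊d * r⌋₊ with hN
  set n := min k (N + 1) with hn
  have hnk : n ≤ k := min_le_left _ _
  have hn1 : 1 ≤ n := by
    rw [hn]; exact le_min hk (by omega)
  have h1 : ∑ i ∈ Finset.range n, (d - (i : ℝ) / r)
      ≤ ∑ i ∈ Finset.range k, max 0 (d - (i : ℝ) / r) := by
    refine (Finset.sum_le_sum (fun i _ => le_max_right 0 _)).trans ?_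
    exact Finset.sum_le_sum_of_subset_of_nonneg (Finset.range_mono hnk)
      (fun _ _ _ => le_max_left _ _)
  refine le_trans ?_ h1
  rw [sum_lin d r hrR n]
  have hNd : (N : ℝ) ≤ d * r := Nat.floor_le (by positivity)
  have hn2 : (n : ℝ) - 1 ≤ d * r := by
    have : n ≤ N + 1 := min_le_right _ _
    have h2 : (n : ℝ) ≤ N + 1 := by exact_mod_cast this
    linarith
  have hn0 : (0 : ℝ) < n := by exact_mod_cast hn1
  have h3 : (n : ℝ) * (n - 1) / (2 * r) ≤ n * d / 2 := by
    rw [div_le_div_iff₀ (by positivity) (by norm_num)]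
    nlinarith
  have h4 : (k : ℝ) * d ^ 2 / 4 ≤ n * d / 2 := by
    have hk1 : (k : ℝ) ≤ r + 1 := by exact_mod_cast hkr
    have hr1 : (1 : ℝ) ≤ r := by exact_mod_cast hr
    rcases min_choice k (N + 1) with h5 | h5
    · have h6 : (n : ℝ) = k := by rw [hn, h5]
      rw [h6]
      have hk0 : (0 : ℝ) ≤ k := Nat.cast_nonneg _
      nlinarith [mul_nonneg hk0 hd.le, mul_nonneg (mul_nonneg hk0 hd.le) (sub_nonneg.mpr hd1)]
    · have h6 : (n : ℝ) = N + 1 := by rw [hn, h5]; push_cast; ring
      have h7 : d * r < N + 1 := Nat.lt_floor_add_one _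
      rw [← h6] at h7
      have h8 : (k : ℝ) * d ^ 2 / 4 ≤ (d * r) * d / 2 := by
        nlinarith [mul_nonneg hd.le hd.le]
      have h9 : (d * r) * d / 2 ≤ n * d / 2 := by nlinarith
      linarith
  linarith

end

end Pool.Agent.Helper71.SUB
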