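import Mathlib
import Pool.Agent.Helper71.SUB.ONE
import Pool.Agent.Helper71.SUB.GW
import Pool.Agent.Helper71.SUB.RLA

open MvPolynomial

namespace Pool.Agent.Helper71.SUB

noncomputable section

/-- weight of an exponent -/
def wtt {n : ℕ} (r : Fin n → ℕ) (c : Fin n →₀ ℕ) : ℝ := ∑ i, (c i : ℝ) / r i

lemma wtt_add {n : ℕ} (r : Fin n → ℕ) (c d : Fin n →₀ ℕ) : wtt r (c + d) = wtt r c + wtt r d := by
  rw [wtt, wtt, wtt, ← Finset.sum_add_distrib]
  refine Finset.sum_congr rfl fun i _ => ?_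
  rw [Finsupp.add_apply]; push_cast; ring

lemma wtt_sum {n : ℕ} {ι : Type*} (r : Fin n → ℕ) (s : Finset ι) (c : ι → (Fin n →₀ ℕ)) :
    wtt r (∑ i ∈ s, c i) = ∑ i ∈ s, wtt r (c i) := by
  classical
  induction s using Finset.induction_on with
  | empty => simp [wtt]
  | insert a s ha ih => rw [Finset.sum_insert ha, wtt_add, ih, Finset.sum_insert ha]

lemma wtt_nonneg {n : ℕ} (r : Fin n → ℕ) (c : Fin n →₀ ℕ) : 0 ≤ wtt r c :=
  Finset.sum_nonneg fun _ _ => by positivity

lemma wtt_cs {n : ℕ} (r : Fin (n + 1) → ℕ) (s : Fin 1 →₀ ℕ) (b : Fin n →₀ ℕ) :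
    wtt r (cs s b) = (s 0 : ℝ) / r 0 + wtt (fun i => r i.succ) b := by
  rw [wtt, Fin.sum_univ_succ, cs_zero, wtt]
  congr 1

lemma aevQ {n : ℕ} (x : Fin n → ℚ) (P : MvPolynomial (Fin n) ℤ) :
    aeval x (map (Int.castRingHom ℚ) P) = aeval x P := by
  rw [← aeval_map_algebraMap ℚ x P]; rfl

lemma dbsum {n : ℕ} {P : MvPolynomial (Fin n) ℤ} {r : Fin n → ℕ} (h : DB P r) :
    ∀ a ∈ P.support, ∑ i, a i ≤ ∑ i, r i :=
  fun a ha => Finset.sum_le_sum fun i _ => h a ha i

lemma nm_pos {n : ℕ} {P : MvPolynomial (Fin n) ℤ} (h : P ≠ 0) : 0 < nm P := by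
  obtain ⟨a, ha⟩ := MvPolynomial.ne_zero_iff.mp h
  have h1 := coeff_le_nm P a
  have h2 : (0 : ℝ) < |((coeff a P : ℤ) : ℝ)| := abs_pos.mpr (by exact_mod_cast ha)
  linarith

lemma fact_le (k r : ℕ) (h : k ≤ r + 1) : (k.factorial : ℝ) ≤ ((2 : ℝ) ^ r) ^ k := by
  have h1 : k.factorial ≤ k ^ k := Nat.factorial_le_pow k
  have h2 : k ≤ 2 ^ r := h.trans (Nat.lt_two_pow_self)
  have h3 : k ^ k ≤ (2 ^ r) ^ k := Nat.pow_le_pow_left h2 k
  exact_mod_cast h1.trans h3

/-- factorization of the Wronskian determinant -/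
lemma det_fac {m k : ℕ} (PQ : MvPolynomial (Fin (m + 1)) ℚ) (ψ : Fin k → MvPolynomial (Fin 1) ℚ)
    (φ : Fin k → MvPolynomial (Fin m) ℚ) (hPQ : PQ = ∑ j, e0 (ψ j) * es (φ j))
    (a : Fin k → (Fin 1 →₀ ℕ)) (b : Fin k → (Fin m →₀ ℕ)) :
    (Matrix.of (fun i l : Fin k => hs (cs (a i) (b l)) PQ)).det
      = e0 (Matrix.of (fun l j : Fin k => hs (a l) (ψ j))).det *
        es (Matrix.of (fun l j : Fin k => hs (b l) (φ j))).det := by
  rw [AlgHom.map_det, AlgHom.map_det,
    ← Matrix.det_transpose (AlgHom.mapMatrix es (Matrix.of (fun l j : Fin k => hs (b l) (φ j)))),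
    ← Matrix.det_mul]
  congr 1
  ext1 i l
  rw [Matrix.mul_apply, Matrix.of_apply, hPQ, map_sum]
  refine Finset.sum_congr rfl fun j _ => ?_
  rw [hs_prod2]
  rfl

theorem rl : ∀ (m : ℕ) (e : ℝ), 0 < e → e ≤ 1 → ∀ (r : Fin m → ℕ) (p : Fin m → ℤ)
    (q : Fin m → ℕ) (L R : ℝ) (P : MvPolynomial (Fin m) ℤ),
    (∀ i, 0 < r i) → (∀ i j, i < j → (r i : ℝ) ≤ om m e * r j) → (∀ i, 0 < q i) →
    (∀ i, IsCoprime (p i) (q i : ℤ)) → (∀ i, (r i : ℝ) ≤ R) → 0 < R → 0 < L →
    (∀ i, L ≤ r i * Real.log (q i)) → 2 * m * R * Real.log 2 ≤ om m e * L →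
    P ≠ 0 → DB P r → Real.log (nm P) ≤ om m e * L →
    ∃ b : Fin m →₀ ℕ, wtt r b ≤ e ∧ aeval (fun i => (p i : ℚ) / q i) (hs b P) ≠ 0 := by
  intro m
  induction m with
  | zero =>
    intro e he _ r p q L R P _ _ _ _ _ _ _ _ _ hP _ _
    refine ⟨0, ?_, ?_⟩
    · rw [wtt]; simpa using he.le
    · rw [hs_zero]
      rw [eq_C_of_isEmpty P] at hP ⊢
      rw [aeval_C]
      intro h
      apply hP
      have h1 : coeff 0 P = 0 := by
        have : ((coeff 0 P : ℤ) : ℚ) = 0 := h
        exact_mod_cast this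
      rw [h1, map_zero]
  | succ m ih =>
    intro e he he1 r p q L R P hr hord hq hpq hR hR0 hL0 hL hLR hP hDB hnm
    classical
    by_contra hcon
    push Not at hcon
    set w := om (m + 1) e with hw
    have hw0 : 0 < w := om_pos _ _ he
    have hwe : w ≤ e ^ 2 / 24 := om_succ_le m e he he1
    set x : Fin (m + 1) → ℚ := fun i => (p i : ℚ) / q i with hx
    have hinj : Function.Injective (Int.castRingHom ℚ) := Int.cast_injective
    set PQ : MvPolynomial (Fin (m + 1)) ℚ := map (Int.castRingHom ℚ) P with hPQdef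
    have hPQ0 : PQ ≠ 0 := by
      intro h
      apply hP
      exact map_injective _ hinj (by rw [← hPQdef, h, map_zero])
    have hPQr : ∀ a ∈ PQ.support, a 0 ≤ r 0 := by
      intro a ha
      exact hDB a (support_map_subset _ _ ha) 0
    obtain ⟨k, hk0, hk1, ψ, φ, hψ, hφ, hPQ⟩ := dec PQ hPQ0 (r 0) hPQr
    obtain ⟨a, ha, hU⟩ := gw ψ hψ
    obtain ⟨b, hb, hV⟩ := gw φ hφ
    set U := (Matrix.of (fun l j : Fin k => hs (a l) (ψ j))).det with hUdef
    set V := (Matrix.of (fun l j : Fin k => hs (b l) (φ j))).det with hVdef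
    set M : Matrix (Fin k) (Fin k) (MvPolynomial (Fin (m + 1)) ℤ) :=
      Matrix.of (fun i l : Fin k => hs (cs (a i) (b l)) P) with hM
    set W := M.det with hWdef
    have hWmap : map (Int.castRingHom ℚ) W = e0 U * es V := by
      rw [hWdef, RingHom.map_det, hUdef, hVdef, ← det_fac PQ ψ φ hPQ a b]
      congr 1
      ext1 i l
      rw [RingHom.mapMatrix_apply, Matrix.map_apply, hM, Matrix.of_apply, Matrix.of_apply,
        ← hs_map]
    have hWDB : DB W (fun i => k * r i) := DB_det M r (fun i j => DB_hs hDB _)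
    obtain ⟨s, hs0⟩ := MvPolynomial.ne_zero_iff.mp hU
    obtain ⟨t, ht0⟩ := MvPolynomial.ne_zero_iff.mp hV
    set V1 := exV (s 0) W with hV1
    set U1 := exU t W with hU1
    have hcW : ∀ (σ : Fin 1 →₀ ℕ) (τ : Fin m →₀ ℕ), ((coeff (cs σ τ) W : ℤ) : ℚ)
        = coeff σ U * coeff τ V := by
      intro σ τ
      rw [← coeff_prod2, ← hWmap, coeff_map]; rfl
    have hV1map : map (Int.castRingHom ℚ) V1 = C (coeff s U) * V := by
      ext τ
      rw [coeff_map, coeff_C_mul, hV1, coeff_exV, ← hcW]; rfl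
    have hU1map : map (Int.castRingHom ℚ) U1 = C (coeff t V) * U := by
      ext σ
      rw [coeff_map, coeff_C_mul, hU1, coeff_exU, mul_comm, ← hcW]; rfl
    have hW0 : W ≠ 0 := by
      intro h
      have h1 := hcW s t
      rw [h, coeff_zero] at h1
      exact mul_ne_zero hs0 ht0 (by rw [← h1]; simp)
    have hV10 : V1 ≠ 0 := by
      intro h
      rw [h, map_zero] at hV1map
      exact mul_ne_zero (C_ne_zero.mpr hs0) hV hV1map.symm
    have hU10 : U1 ≠ 0 := by
      intro h
      rw [h, map_zero] at hU1map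
      exact mul_ne_zero (C_ne_zero.mpr ht0) hU hU1map.symm
    -- heights
    have hkR : (0 : ℝ) < k := by exact_mod_cast hk0
    have hr0R : (r 0 : ℝ) ≤ R := hR 0
    have hlog2 : 0 < Real.log 2 := Real.log_pos (by norm_num)
    have hlogW : Real.log (nm W) ≤ 2 * k * w * L := by
      have h1 : nm W ≤ (k.factorial : ℝ) * (2 ^ (∑ i, r i) * nm P) ^ k :=
        nm_det_le M _ (fun i j => nm_hs_le P _ _ (dbsum hDB))
      have h2 : (k.factorial : ℝ) * (2 ^ (∑ i, r i) * nm P) ^ k
          ≤ ((2 : ℝ) ^ (r 0)) ^ k * (2 ^ (∑ i, r i) * nm P) ^ k :=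
        mul_le_mul_of_nonneg_right (fact_le k (r 0) hk1)
          (pow_nonneg (mul_nonneg (by positivity) (nm_nonneg P)) k)
      have hPpos := nm_pos hP
      have h3 := Real.log_le_log (nm_pos hW0) (h1.trans h2)
      refine h3.trans ?_
      rw [← mul_pow, Real.log_pow, Real.log_mul (by positivity) (by positivity),
        Real.log_mul (by positivity) (by positivity), Real.log_pow, Real.log_pow]
      have h4 : ((∑ i, r i : ℕ) : ℝ) ≤ (m + 1) * R := by
        push_cast
        refine (Finset.sum_le_sum (fun i _ => hR i)).trans ?_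
        rw [Finset.sum_const, Finset.card_univ, Fintype.card_fin, nsmul_eq_mul]
        push_cast
        exact le_rfl
      have h5 : (r 0 : ℝ) * Real.log 2 ≤ R * Real.log 2 := mul_le_mul_of_nonneg_right hr0R hlog2.le
      have h6 : ((∑ i, r i : ℕ) : ℝ) * Real.log 2 ≤ (m + 1) * R * Real.log 2 :=
        mul_le_mul_of_nonneg_right h4 hlog2.le
      have hm0 : (0 : ℝ) ≤ m := Nat.cast_nonneg m
      have h7 : R * Real.log 2 ≤ (m + 1) * R * Real.log 2 := by
        have := mul_nonneg (mul_nonneg hm0 hR0.le) hlog2.le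
        nlinarith
      have h8 : 2 * ((m : ℝ) + 1) * R * Real.log 2 ≤ w * L := by
        have := hLR
        push_cast at this
        exact this
      have h9 : (r 0 : ℝ) * Real.log 2 + (((∑ i, r i : ℕ) : ℝ) * Real.log 2 + Real.log (nm P))
          ≤ 2 * (w * L) := by linarith
      have := mul_le_mul_of_nonneg_left h9 hkR.le
      linarith
    -- one variable
    obtain ⟨σ, hσ1, hσ2⟩ := one_var U1 hU10 (p 0) (q 0) (hq 0) (hpq 0)
    have hq0 : 0 < Real.log (q 0) := by
      have h1 : 0 < (r 0 : ℝ) * Real.log (q 0) := lt_of_lt_of_le hL0 (hL 0)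
      have h2 : (0 : ℝ) < r 0 := by exact_mod_cast hr 0
      exact (pos_iff_pos_of_mul_pos h1).mp h2
    have hr00 : (0 : ℝ) < r 0 := by exact_mod_cast hr 0
    have hσ3 : (σ 0 : ℝ) / r 0 ≤ 2 * k * w := by
      have hqpos : (0 : ℝ) < q 0 := by exact_mod_cast hq 0
      have h1 := Real.log_le_log (pow_pos hqpos (σ 0)) (hσ1.trans (nm_exU t W))
      rw [Real.log_pow] at h1
      have h2 : 2 * k * w * L ≤ 2 * k * w * (r 0 * Real.log (q 0)) :=
        mul_le_mul_of_nonneg_left (hL 0) (by positivity)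
      have h3 : (σ 0 : ℝ) * Real.log (q 0) ≤ (2 * k * w * r 0) * Real.log (q 0) := by linarith
      have h4 := le_of_mul_le_mul_right h3 hq0
      rw [div_le_iff₀ hr00]
      exact h4
    -- induction hypothesis
    have hih := ih (e ^ 2 / 12) (by positivity) (by nlinarith) (fun i => k * r i.succ)
      (fun i => p i.succ) (fun i => q i.succ) (k * L) (k * R) V1
      (fun i => Nat.mul_pos hk0 (hr _))
      (by
        intro i j hij
        rw [om_succ, ← hw]
        have h1 := hord i.succ j.succ (Fin.succ_lt_succ_iff.mpr hij)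
        have h2 : (0 : ℝ) ≤ r j.succ := Nat.cast_nonneg _
        push_cast
        have h3 := mul_le_mul_of_nonneg_left h1 hkR.le
        have h4 : 0 ≤ w * ((k : ℝ) * r j.succ) := by positivity
        linarith)
      (fun i => hq _) (fun i => hpq _)
      (by
        intro i
        push_cast
        exact mul_le_mul_of_nonneg_left (hR _) hkR.le)
      (by positivity) (by positivity)
      (by
        intro i
        push_cast
        have := mul_le_mul_of_nonneg_left (hL i.succ) hkR.le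
        linarith)
      (by
        rw [om_succ, ← hw]
        have h1 : 2 * ((m : ℝ) + 1) * R * Real.log 2 ≤ w * L := by
          have := hLR
          push_cast at this
          exact this
        have h2 := mul_le_mul_of_nonneg_left h1 hkR.le
        have h3 : 0 ≤ (k : ℝ) * (w * L) := by positivity
        have h4 : 0 ≤ (k : ℝ) * (R * Real.log 2) := by positivity
        nlinarith)
      hV10 (DB_exV _ W _ hWDB)
      (by
        rw [om_succ, ← hw]
        refine (Real.log_le_log (nm_pos hV10) (nm_exV _ W)).trans (hlogW.trans (le_of_eq ?_))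
        ring)
    obtain ⟨β, hβ1, hβ2⟩ := hih
    have hβ3 : wtt (fun i => r i.succ) β ≤ k * (e ^ 2 / 12) := by
      have h1 : wtt (fun i => k * r i.succ) β = wtt (fun i => r i.succ) β / k := by
        rw [wtt, wtt, Finset.sum_div]
        refine Finset.sum_congr rfl fun i _ => ?_
        push_cast
        rw [div_div, mul_comm]
      rw [h1, div_le_iff₀ hkR] at hβ1
      linarith
    -- nonvanishing
    have hne : aeval x (hs (cs σ β) W) ≠ 0 := by
      rw [← aevQ, ← hs_map, hWmap, hs_prod2, aeval_prod2]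
      refine mul_ne_zero ?_ ?_
      · intro h
        apply hσ2
        rw [← aevQ, ← hs_map, hU1map, hs_C_mul, map_mul]
        have : aeval (fun _ : Fin 1 => (p 0 : ℚ) / q 0) (hs σ U) = 0 := h
        rw [this, mul_zero]
      · intro h
        apply hβ2
        rw [← aevQ, ← hs_map, hV1map, hs_C_mul, map_mul]
        have : aeval (fun i : Fin m => (p i.succ : ℚ) / q i.succ) (hs β V) = 0 := h
        rw [this, mul_zero]
    -- expansion
    rw [hWdef, Matrix.det_apply, map_sum, map_sum] at hne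
    obtain ⟨π, _, hπ⟩ := Finset.exists_ne_zero_of_sum_ne_zero hne
    have hπ' : aeval x (hs (cs σ β) (∏ i, M (π i) i)) ≠ 0 := by
      intro h
      apply hπ
      rcases Int.units_eq_one_or (Equiv.Perm.sign π) with h2 | h2
      · rw [h2, one_smul]; exact h
      · rw [h2, Units.neg_smul, one_smul, map_neg, map_neg, h, neg_zero]
    obtain ⟨d, hd1, hd2⟩ := hs_prod_ne Finset.univ (fun i => M (π i) i) x (cs σ β) hπ'
    have hdi : ∀ i : Fin k, e - w - ((π i : ℕ) : ℝ) / r 0 ≤ wtt r (d i) := by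
      intro i
      have h1 := hd2 i (Finset.mem_univ i)
      rw [hM, Matrix.of_apply, hs_hs, map_mul] at h1
      have h2 := right_ne_zero_of_mul h1
      have h3 : e < wtt r (cs (a (π i)) (b i) + d i) := by
        by_contra h4
        push Not at h4
        exact h2 (hcon _ h4)
      rw [wtt_add, wtt_cs] at h3
      have h5 : ((a (π i)) 0 : ℝ) / r 0 ≤ ((π i : ℕ) : ℝ) / r 0 := by
        apply div_le_div_of_nonneg_right _ hr00.le
        have := ha (π i)
        rw [Fin.sum_univ_one] at this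
        exact_mod_cast this
      have h6 : wtt (fun i => r i.succ) (b i) ≤ w := by
        rw [wtt]
        have h7 : ∀ h : Fin m, ((b i) h : ℝ) / r h.succ ≤ ((b i) h : ℝ) * (w / r 0) := by
          intro h
          rw [div_eq_mul_inv]
          apply mul_le_mul_of_nonneg_left _ (Nat.cast_nonneg _)
          have h8 := hord 0 h.succ (Fin.succ_pos h)
          have h9 : (0 : ℝ) < r h.succ := by exact_mod_cast hr _
          rw [inv_le_comm₀ h9 (by positivity), inv_div, div_le_iff₀ hw0]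
          linarith
        refine (Finset.sum_le_sum fun h _ => h7 h).trans ?_
        rw [← Finset.sum_mul]
        have h8 : (∑ h : Fin m, ((b i) h : ℝ)) ≤ r 0 := by
          have h9 := hb i
          have h10 : (i : ℕ) ≤ r 0 := by have := i.2; omega
          exact_mod_cast h9.trans h10
        calc (∑ h : Fin m, ((b i) h : ℝ)) * (w / r 0) ≤ r 0 * (w / r 0) :=
              mul_le_mul_of_nonneg_right h8 (by positivity)
          _ = w := by field_simp
      linarith
    have hsum : wtt r (cs σ β) = ∑ i, wtt r (d i) := by rw [← hd1, wtt_sum]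
    have hlow : (k : ℝ) * (e - w) ^ 2 / 4 ≤ wtt r (cs σ β) := by
      rw [hsum]
      have hde : 0 < e - w := by nlinarith
      refine (sum_max k (r 0) hk0 (hr 0) hk1 (e - w) hde (by linarith)).trans ?_
      rw [← Equiv.sum_comp π (fun i : Fin k => max 0 (e - w - ((i : ℕ) : ℝ) / r 0))]
      refine Finset.sum_le_sum fun i _ => ?_
      exact max_le (wtt_nonneg _ _) (hdi i)
    rw [wtt_cs] at hlow
    have hup : (σ 0 : ℝ) / r 0 + wtt (fun i => r i.succ) β ≤ k * (e ^ 2 / 6) := by
      have h1 : 2 * (k : ℝ) * w ≤ k * (e ^ 2 / 12) := by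
        have := mul_le_mul_of_nonneg_left hwe hkR.le
        linarith
      linarith
    have hfin : (k : ℝ) * (e - w) ^ 2 / 4 ≤ k * (e ^ 2 / 6) := hlow.trans hup
    have h1 : (e - w) ^ 2 / 4 ≤ e ^ 2 / 6 := by
      have : (k : ℝ) * ((e - w) ^ 2 / 4) ≤ k * (e ^ 2 / 6) := by linarith
      exact le_of_mul_le_mul_left this hkR
    have h2 : w ≤ e / 24 := by nlinarith
    have h3 : 23 / 24 * e ≤ e - w := by linarith
    have h4 : (23 / 24 * e) ^ 2 ≤ (e - w) ^ 2 := pow_le_pow_left₀ (by positivity) h3 2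
    nlinarith [sq_pos_of_pos he]

end

end Pool.Agent.Helper71.SUB
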