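import Mathlib
import Pool.Agent.Helper70.SUB.SheetR
import Pool.Agent.Helper71.SUB.RL

open MvPolynomial

namespace Pool.Agent.Helper71.SUB

noncomputable section

open Pool.Agent.Helper70.SUB (shf toQ ST_ROTH)

lemma shf_coeff {n : ℕ} (α : Fin n → ℚ) (J : Fin n →₀ ℕ) (P : MvPolynomial (Fin n) ℚ) :
    (shf α P).coeff J = aeval α (hs J P) := by
  have h1 : map (eval α) (tay P) = shf α P := by
    have : ((map (eval α)).comp (tay : MvPolynomial (Fin n) ℚ →ₐ[ℚ] _).toRingHom)
        = (shf α : MvPolynomial (Fin n) ℚ →ₐ[ℚ] _).toRingHom := by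
      apply MvPolynomial.ringHom_ext
      · intro r
        simp [tay, shf, MvPolynomial.algebraMap_eq]
      · intro i
        simp [tay, shf]
    exact congrArg (fun f => f P) this
  rw [← h1, coeff_map, hs_apply]
  rfl

lemma card_le {n : ℕ} (P : MvPolynomial (Fin n) ℤ) (r : Fin n → ℕ) (h : DB P r) :
    (P.support.card : ℝ) ≤ 2 ^ (∑ i, r i) := by
  classical
  have h1 : P.support.card ≤ (Fintype.piFinset (fun i => Finset.range (r i + 1))).card := by
    apply Finset.card_le_card_of_injOn (fun (a : Fin n →₀ ℕ) => (fun i => a i : Fin n → ℕ))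
    · intro a ha
      simp only [Finset.mem_coe, Fintype.mem_piFinset, Finset.mem_range]
      intro i
      exact Nat.lt_succ_of_le (h a ha i)
    · intro a _ b _ hab
      exact Finsupp.ext fun i => congrFun hab i
  have h2 : (Fintype.piFinset (fun i => Finset.range (r i + 1))).card ≤ 2 ^ (∑ i, r i) := by
    rw [Fintype.card_piFinset, ← Finset.prod_pow_eq_pow_sum]
    apply Finset.prod_le_prod'
    intro i _
    rw [Finset.card_range]
    exact Nat.lt_two_pow_self
  exact_mod_cast h1.trans h2

theorem ROTH : ST_ROTH := by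
  intro m e hm he
  set e1 : ℝ := min (e / 2) 1 with he1
  have he10 : 0 < e1 := lt_min (by linarith) one_pos
  have he11 : e1 ≤ 1 := min_le_right _ _
  have he12 : e1 < e := lt_of_le_of_lt (min_le_left _ _) (by linarith)
  have hom := om_pos m e1 he10
  refine ⟨om m e1 / (2 * m + 2), by positivity, ?_⟩
  set ω := om m e1 / (2 * m + 2) with hω
  have hω0 : 0 < ω := by positivity
  have hωm : ω * (2 * m + 2) = om m e1 := by
    rw [hω]; field_simp
  have hm0 : (0 : ℝ) ≤ m := Nat.cast_nonneg m
  have hωle : ω ≤ om m e1 := by nlinarith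
  intro r p q B P hr hord hq hB hBq h2B hP hdeg hcoef
  have hlogB : 0 < Real.log B := Real.log_pos hB
  have hlog2 : 0 < Real.log 2 := Real.log_pos (by norm_num)
  have hB0 : 0 < B := by linarith
  have hDB : DB P r := by
    intro a ha i
    exact (monomial_le_degreeOf i ha).trans (hdeg i)
  have hr2 : ∀ h, (r h : ℝ) * Real.log 2 ≤ ω * Real.log B := by
    intro h
    have h1 := Real.log_le_log (by positivity) (h2B h)
    rw [Real.log_pow, Real.log_rpow hB0] at h1
    exact h1
  have hqn : ∀ h, ((q h).toNat : ℤ) = q h := fun h => Int.toNat_of_nonneg (by linarith [(hq h).1])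
  have hnm : Real.log (nm P) ≤ om m e1 * Real.log B := by
    have h1 : nm P ≤ 2 ^ (∑ i, r i) * B ^ ω := by
      have h2 : nm P ≤ ∑ _a ∈ P.support, B ^ ω := Finset.sum_le_sum fun a _ => hcoef a
      rw [Finset.sum_const, nsmul_eq_mul] at h2
      exact h2.trans (mul_le_mul_of_nonneg_right (card_le P r hDB) (by positivity))
    have h3 := Real.log_le_log (nm_pos hP) h1
    rw [Real.log_mul (by positivity) (by positivity), Real.log_pow, Real.log_rpow hB0] at h3
    have h4 : ((∑ i, r i : ℕ) : ℝ) * Real.log 2 ≤ m * (ω * Real.log B) := by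
      push_cast
      rw [Finset.sum_mul]
      refine (Finset.sum_le_sum fun i _ => hr2 i).trans ?_
      rw [Finset.sum_const, Finset.card_univ, Fintype.card_fin, nsmul_eq_mul]
    have h5 : 0 ≤ ω * Real.log B := by positivity
    rw [← hωm]
    nlinarith
  obtain ⟨b, hb1, hb2⟩ := rl m e1 he10 he11 r p (fun h => (q h).toNat) (Real.log B)
    (ω * Real.log B / Real.log 2) P (fun i => hr i)
    (fun i j hij => (hord i j hij).trans
      (mul_le_mul_of_nonneg_right hωle (Nat.cast_nonneg _)))
    (fun i => by have := (hq i).1; omega)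
    (fun i => by rw [hqn]; exact (hq i).2)
    (fun i => by rw [le_div_iff₀ hlog2]; exact hr2 i)
    (by positivity) hlogB
    (fun i => by
      have h1 := Real.log_le_log hB0 (hBq i)
      rw [Real.log_pow] at h1
      have h2 : (((q i).toNat : ℕ) : ℝ) = (q i : ℝ) := by exact_mod_cast hqn i
      rw [h2]; exact h1)
    (by
      rw [← hωm]
      have h5 : 0 ≤ ω * Real.log B := by positivity
      have : 2 * (m : ℝ) * (ω * Real.log B / Real.log 2) * Real.log 2
          = 2 * m * (ω * Real.log B) := by field_simp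
      rw [this]; nlinarith)
    hP hDB hnm
  refine ⟨b, ?_, lt_of_le_of_lt hb1 he12⟩
  rw [shf_coeff]
  have h1 : hs b (toQ P) = map (Int.castRingHom ℚ) (hs b P) := hs_map _ b P
  rw [h1, aevQ]
  have h2 : (fun h => (p h : ℚ) / ((q h : ℤ) : ℚ)) = fun h => (p h : ℚ) / (((q h).toNat : ℕ) : ℚ) := by
    funext h
    have h3 : (((q h).toNat : ℕ) : ℚ) = ((q h : ℤ) : ℚ) := by exact_mod_cast hqn h
    rw [h3]
  rw [h2]
  exact hb2

end

end Pool.Agent.Helper71.SUB
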